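import Pool.Agent.X10.PC.Nu
import Pool.Agent.H256R2.SC.V1

set_option autoImplicit false

/-! # Greedy choice of residues modulo small primes (helper10) -/

namespace Pool.Agent.X10.PC

open Polynomial Finset
open Pool.Agent.H474R2.PG (rho PR Sg)
open Pool.Agent.W154.PV (nu)

open scoped Classical in
lemma one_prime_gen {ι : Type} (I : Finset ι) (Q : ι → ℤ → Prop) (u : ι → ℝ) (q : ℕ) (hq : 0 < q) :
    ∃ r : ℕ, ∑ i ∈ I, (if ¬ Q i (r : ℤ) then u i else 0) ≤
      ∑ i ∈ I, u i * (1 - (nu (Q i) q : ℝ) / (q : ℝ)) := by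
  have hq0 : (0 : ℝ) < q := by exact_mod_cast hq
  by_contra hcon
  push Not at hcon
  have h1 : ∑ r ∈ range q, ∑ i ∈ I, u i * (1 - (nu (Q i) q : ℝ) / (q : ℝ)) <
      ∑ r ∈ range q, ∑ i ∈ I, (if ¬ Q i (r : ℤ) then u i else 0) :=
    sum_lt_sum_of_nonempty ⟨0, mem_range.2 hq⟩ fun r _ => hcon r
  rw [sum_const, card_range, nsmul_eq_mul, mul_sum, sum_comm] at h1
  refine absurd h1 (not_lt.2 (le_of_eq ?_))
  refine sum_congr rfl fun i _ => ?_
  rw [← sum_filter, sum_const, nsmul_eq_mul]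
  have h2 : ((range q).filter (fun r : ℕ => ¬ Q i (r : ℤ))).card + nu (Q i) q = q := by
    have := card_filter_add_card_filter_not (s := range q) (fun r : ℕ => Q i (r : ℤ))
    rw [card_range] at this
    have e : nu (Q i) q = ((range q).filter (fun r : ℕ => Q i (r : ℤ))).card := by
      unfold nu
      congr!
    rw [e]
    omega
  have h3 : (((range q).filter (fun r : ℕ => ¬ Q i (r : ℤ))).card : ℝ) = q - nu (Q i) q := by
    rw [eq_sub_iff_add_eq]
    exact_mod_cast h2
  rw [h3]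
  field_simp

open scoped Classical in
lemma choose_all_gen {ι : Type} (I : Finset ι) (Q : ℕ → ι → ℤ → Prop) (S : Finset ℕ) (hS : ∀ p ∈ S, 0 < p) :
    ∀ v : ι → ℝ, (∀ i, 0 ≤ v i) → ∃ r : ℕ → ℕ,
      ∑ i ∈ I, (if ∀ p ∈ S, ¬ Q p i (r p : ℤ) then v i else 0) ≤
      ∑ i ∈ I, v i * ∏ p ∈ S, (1 - (nu (Q p i) p : ℝ) / (p : ℝ)) := by
  induction S using Finset.induction_on with
  | empty =>
    intro v _
    exact ⟨fun _ => 0, by simp⟩
  | insert q S hqS ih =>
    intro v hv
    have hqp : 0 < q := hS q (mem_insert_self _ _)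
    have hSp : ∀ p ∈ S, 0 < p := fun p hp => hS p (mem_insert_of_mem hp)
    obtain ⟨rq, hrq⟩ := one_prime_gen I (Q q) (fun i => v i * ∏ p ∈ S, (1 - (nu (Q p i) p : ℝ) / (p : ℝ))) q hqp
    obtain ⟨r, hr⟩ := ih hSp (fun i => if ¬ Q q i (rq : ℤ) then v i else 0)
      (fun i => by beta_reduce; split_ifs; exacts [le_rfl, hv i])
    refine ⟨Function.update r q rq, ?_⟩
    have e1 : ∀ i ∈ I, (if ∀ p ∈ insert q S, ¬ Q p i ((Function.update r q rq p : ℕ) : ℤ) then v i else 0) =
        (if ∀ p ∈ S, ¬ Q p i (r p : ℤ) then (if ¬ Q q i (rq : ℤ) then v i else 0) else 0) := by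
      intro i _
      have e2 : (∀ p ∈ insert q S, ¬ Q p i ((Function.update r q rq p : ℕ) : ℤ)) ↔
          (∀ p ∈ S, ¬ Q p i (r p : ℤ)) ∧ ¬ Q q i (rq : ℤ) := by
        rw [forall_mem_insert, Function.update_self, and_comm]
        refine and_congr_left fun _ => ?_
        refine forall₂_congr fun p hp => ?_
        have hpq : p ≠ q := by rintro rfl; exact hqS hp
        rw [Function.update_of_ne hpq]
      by_cases h1 : ∀ p ∈ S, ¬ Q p i (r p : ℤ)
      · by_cases h2 : ¬ Q q i (rq : ℤ)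
        · rw [if_pos (e2.2 ⟨h1, h2⟩), if_pos h1, if_pos h2]
        · rw [if_neg (fun h => h2 (e2.1 h).2), if_pos h1, if_neg h2]
      · rw [if_neg (fun h => h1 (e2.1 h).1), if_neg h1]
    rw [sum_congr rfl e1]
    refine hr.trans ?_
    calc _ = ∑ i ∈ I, (if ¬ Q q i (rq : ℤ) then
          v i * ∏ p ∈ S, (1 - (nu (Q p i) p : ℝ) / (p : ℝ)) else 0) := by
          refine sum_congr rfl fun i _ => ?_
          rw [ite_mul, zero_mul]
      _ ≤ _ := hrq
      _ = _ := by
          refine sum_congr rfl fun i _ => ?_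
          rw [prod_insert hqS]
          ring

open scoped Classical in
/-- a residue class modulo the product of the primes of `S` -/
lemma greedy {ι : Type} (I : Finset ι) (Q : ℕ → ι → ℤ → Prop) (S : Finset ℕ) (hS : ∀ p ∈ S, p.Prime)
    (hQ : ∀ p ∈ S, ∀ i ∈ I, ∀ x y : ℤ, (p : ℤ) ∣ x - y → (Q p i x ↔ Q p i y)) :
    ∃ n₀ : ℤ, ((I.filter (fun i => ∀ p ∈ S, ¬ Q p i n₀)).card : ℝ) ≤
      ∑ i ∈ I, ∏ p ∈ S, (1 - (nu (Q p i) p : ℝ) / (p : ℝ)) := by
  obtain ⟨r, hr⟩ := choose_all_gen I Q S (fun p hp => (hS p hp).pos) (fun _ => 1) (fun _ => zero_le_one)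
  obtain ⟨n₀, hn₀⟩ := Pool.Agent.H256R2.SC.crt_int S (fun p : ℕ => (p : ℤ)) (fun p hp q hq hpq => by
    rw [Nat.isCoprime_iff_coprime]
    exact (Nat.coprime_primes (hS p hp) (hS q hq)).2 hpq) (fun p => (r p : ℤ))
  refine ⟨n₀, ?_⟩
  have h1 : ((I.filter (fun i => ∀ p ∈ S, ¬ Q p i n₀)).card : ℝ) =
      ∑ i ∈ I, (if ∀ p ∈ S, ¬ Q p i (r p : ℤ) then (1 : ℝ) else 0) := by
    rw [sum_boole]
    congr 2
    refine filter_congr fun i hi => ?_
    refine forall₂_congr fun p hp => ?_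
    exact not_congr (hQ p hp i hi _ _ (hn₀ p hp))
  rw [h1]
  refine hr.trans (le_of_eq ?_)
  exact sum_congr rfl fun i _ => one_mul _

lemma nu_le_self (Q : ℤ → Prop) (p : ℕ) : nu Q p ≤ p := by
  classical
  have e : nu Q p = ((range p).filter (fun r : ℕ => Q (r : ℤ))).card := by
    unfold nu
    congr!
  rw [e]
  exact (card_le_card (filter_subset _ _)).trans (by rw [card_range])

/-- the sum over the prime divisors -/
lemma sum_inv_le {a : ℤ} (ha : a ≠ 0) :
    Real.exp (∑ p ∈ a.natAbs.primeFactors, 1 / (p : ℝ)) ≤ (a.natAbs : ℝ) / (Nat.totient a.natAbs : ℝ) := by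
  have hna : 0 < a.natAbs := Int.natAbs_pos.2 ha
  have hn0 : (0 : ℝ) < a.natAbs := by exact_mod_cast hna
  have ht : (0 : ℝ) < Nat.totient a.natAbs := by exact_mod_cast Nat.totient_pos.2 hna
  have h1 : (Nat.totient a.natAbs : ℝ) = a.natAbs * ∏ p ∈ a.natAbs.primeFactors, (1 - (p : ℝ)⁻¹) := by
    have h := Nat.totient_eq_mul_prod_factors a.natAbs
    have h2 : ((Nat.totient a.natAbs : ℚ) : ℝ) =
      (((a.natAbs : ℚ) * ∏ p ∈ a.natAbs.primeFactors, (1 - (p : ℚ)⁻¹) : ℚ) : ℝ) := by rw [h]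
    push_cast at h2
    exact h2
  rw [Real.exp_sum, le_div_iff₀ ht, h1]
  have h2 : (∏ p ∈ a.natAbs.primeFactors, Real.exp (1 / (p : ℝ))) *
      ∏ p ∈ a.natAbs.primeFactors, (1 - (p : ℝ)⁻¹) ≤ 1 := by
    rw [← prod_mul_distrib]
    apply prod_le_one
    · intro p hp
      have hp1 : (1 : ℝ) ≤ p := by exact_mod_cast (Nat.prime_of_mem_primeFactors hp).one_le
      have : (p : ℝ)⁻¹ ≤ 1 := inv_le_one_of_one_le₀ hp1
      exact mul_nonneg (Real.exp_pos _).le (by linarith)
    · intro p _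
      have h3 := Real.add_one_le_exp (-(p : ℝ)⁻¹)
      calc Real.exp (1 / (p : ℝ)) * (1 - (p : ℝ)⁻¹) ≤ Real.exp (1 / (p : ℝ)) * Real.exp (-(p : ℝ)⁻¹) :=
            mul_le_mul_of_nonneg_left (by linarith) (Real.exp_pos _).le
        _ = 1 := by rw [← Real.exp_add, one_div, add_neg_cancel, Real.exp_zero]
  calc (∏ p ∈ a.natAbs.primeFactors, Real.exp (1 / (p : ℝ))) *
        (a.natAbs * ∏ p ∈ a.natAbs.primeFactors, (1 - (p : ℝ)⁻¹)) =
        a.natAbs * ((∏ p ∈ a.natAbs.primeFactors, Real.exp (1 / (p : ℝ))) *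
      ∏ p ∈ a.natAbs.primeFactors, (1 - (p : ℝ)⁻¹)) := by ring
    _ ≤ a.natAbs * 1 := mul_le_mul_of_nonneg_left h2 hn0.le
    _ = _ := mul_one _

/-- the density of the values `f (a x + b)` without a prime factor up to `w` -/
lemma density_le (f : ℤ[X]) (D B : ℕ) (C : ℝ) (hC : ∀ w : ℝ, 3 ≤ w → Real.log (Real.log w) - C ≤ Sg (rho f) w)
    (hB : ∀ p : ℕ, p.Prime → B < p → rho f p ≤ D) {a : ℤ} (ha : a ≠ 0) (b : ℤ) (w : ℝ) (hw : 3 ≤ w) :
    ∏ p ∈ PR w, (1 - (nu (fun x => (p : ℤ) ∣ f.eval (a * x + b)) p : ℝ) / (p : ℝ)) ≤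
      Real.exp (C + B) * ((a.natAbs : ℝ) / (Nat.totient a.natAbs : ℝ)) ^ D / Real.log w := by
  classical
  have hlw : 0 < Real.log w := Real.log_pos (by linarith)
  have h1 : ∏ p ∈ PR w, (1 - (nu (fun x => (p : ℤ) ∣ f.eval (a * x + b)) p : ℝ) / (p : ℝ)) ≤
      ∏ p ∈ PR w, Real.exp (-(if (p : ℤ) ∣ a then 0 else (rho f p : ℝ) / (p : ℝ))) := by
    apply prod_le_prod
    · intro p hp
      have hpp := Pool.Agent.H474R2.PG.PR_prime hp
      have hp0 : (0 : ℝ) < p := by exact_mod_cast hpp.pos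
      have : (nu (fun x => (p : ℤ) ∣ f.eval (a * x + b)) p : ℝ) ≤ p := by
        exact_mod_cast nu_le_self _ p
      have h2 : (nu (fun x => (p : ℤ) ∣ f.eval (a * x + b)) p : ℝ) / p ≤ 1 := by rwa [div_le_one hp0]
      linarith
    · intro p hp
      have hpp := Pool.Agent.H474R2.PG.PR_prime hp
      by_cases h : (p : ℤ) ∣ a
      · rw [if_pos h, neg_zero, Real.exp_zero]
        have : 0 ≤ (nu (fun x => (p : ℤ) ∣ f.eval (a * x + b)) p : ℝ) / p := by positivity
        linarith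
      · rw [if_neg h, nu_sub f a b p hpp h]
        have := Real.add_one_le_exp (-((rho f p : ℝ) / (p : ℝ)))
        linarith
  refine h1.trans ?_
  rw [← Real.exp_sum, sum_neg_distrib]
  -- the sum
  have h2 : Real.log (Real.log w) - C - (B + D * ∑ p ∈ a.natAbs.primeFactors, 1 / (p : ℝ)) ≤
      ∑ p ∈ PR w, (if (p : ℤ) ∣ a then 0 else (rho f p : ℝ) / (p : ℝ)) := by
    have h3 : Sg (rho f) w = ∑ p ∈ PR w, (if (p : ℤ) ∣ a then 0 else (rho f p : ℝ) / (p : ℝ)) +
        ∑ p ∈ PR w, (if (p : ℤ) ∣ a then (rho f p : ℝ) / (p : ℝ) else 0) := by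
      unfold Sg
      rw [← sum_add_distrib]
      refine sum_congr rfl fun p _ => ?_
      split_ifs <;> simp
    have h4 : ∑ p ∈ PR w, (if (p : ℤ) ∣ a then (rho f p : ℝ) / (p : ℝ) else 0) ≤
        B + D * ∑ p ∈ a.natAbs.primeFactors, 1 / (p : ℝ) := by
      rw [← sum_filter, ← sum_filter_add_sum_filter_not _ (fun p => p ≤ B)]
      apply add_le_add
      · calc _ ≤ ∑ p ∈ ((PR w).filter (fun p : ℕ => (p : ℤ) ∣ a)).filter (fun p => p ≤ B), (1 : ℝ) := by
              refine sum_le_sum fun p hp => ?_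
              rw [mem_filter, mem_filter] at hp
              have hpp := Pool.Agent.H474R2.PG.PR_prime hp.1.1
              have hp0 : (0 : ℝ) < p := by exact_mod_cast hpp.pos
              rw [div_le_one hp0]
              exact_mod_cast Pool.Agent.H474R2.PG.rho_le_self f p
          _ = _ := by rw [sum_const, nsmul_eq_mul, mul_one]
          _ ≤ B := by
              have hsub : ((PR w).filter (fun p : ℕ => (p : ℤ) ∣ a)).filter (fun p => p ≤ B) ⊆ Icc 1 B := by
                intro p hp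
                rw [mem_filter, mem_filter] at hp
                have hpp := Pool.Agent.H474R2.PG.PR_prime hp.1.1
                rw [mem_Icc]
                exact ⟨hpp.pos, hp.2⟩
              have := card_le_card hsub
              rw [Nat.card_Icc, Nat.add_sub_cancel] at this
              exact_mod_cast this
      · rw [mul_sum]
        calc _ ≤ ∑ p ∈ ((PR w).filter (fun p : ℕ => (p : ℤ) ∣ a)).filter (fun p => ¬ p ≤ B), (D : ℝ) * (1 / (p : ℝ)) := by
              refine sum_le_sum fun p hp => ?_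
              rw [mem_filter, mem_filter] at hp
              have hpp := Pool.Agent.H474R2.PG.PR_prime hp.1.1
              have hp0 : (0 : ℝ) < p := by exact_mod_cast hpp.pos
              have h5 : (rho f p : ℝ) ≤ D := by exact_mod_cast hB p hpp (by omega)
              calc (rho f p : ℝ) / p ≤ D / p := by gcongr
                _ = _ := by ring
          _ ≤ _ := by
              apply sum_le_sum_of_subset_of_nonneg
              · intro p hp
                rw [mem_filter, mem_filter] at hp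
                have hpp := Pool.Agent.H474R2.PG.PR_prime hp.1.1
                exact Nat.mem_primeFactors.2 ⟨hpp, Int.natCast_dvd.1 hp.1.2, Int.natAbs_ne_zero.2 ha⟩
              · intro p _ _
                positivity
    have h5 := hC w hw
    linarith
  calc Real.exp (-∑ p ∈ PR w, (if (p : ℤ) ∣ a then 0 else (rho f p : ℝ) / (p : ℝ))) ≤
        Real.exp ((C + B) + D * (∑ p ∈ a.natAbs.primeFactors, 1 / (p : ℝ)) - Real.log (Real.log w)) := by
        apply Real.exp_le_exp.2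
        linarith
    _ = Real.exp (C + B) * (Real.exp (∑ p ∈ a.natAbs.primeFactors, 1 / (p : ℝ))) ^ D / Real.log w := by
        rw [Real.exp_sub, Real.exp_log hlw, Real.exp_add, Real.exp_nat_mul]
    _ ≤ _ := by
        gcongr
        exact sum_inv_le ha

end Pool.Agent.X10.PC
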