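import Pool.Agent.X10.PC.Tools

set_option autoImplicit false

/-! # Simultaneously composite values `f_i (a n + b)` (helper10) -/

namespace Pool.Agent.X10.PC

open Polynomial Finset Filter
open Pool.Agent.H474R2.PG (rho PR Sg WW WW_le WW_pos PR_prime PR_le PR_not_dvd rho_le mertens_lower)
open Pool.Agent.H426R3.SQ (SP)
open Pool.Agent.W154.PV (nu count_gen covering_hitD rough_lowerD)

lemma natlog_le {n : ℕ} (hn : n ≠ 0) {T : ℝ} (hT : 0 ≤ T) (h : (n : ℝ) ≤ Real.exp T) :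
    (n.primeFactors.card : ℝ) ≤ 3 / 2 * T := by
  have h0 : 2 ^ n.primeFactors.card ≤ n := by
    calc 2 ^ n.primeFactors.card ≤ ∏ p ∈ n.primeFactors, p :=
          pow_card_le_prod _ _ _ fun p hp => (Nat.prime_of_mem_primeFactors hp).two_le
      _ ≤ n := Nat.le_of_dvd (Nat.pos_of_ne_zero hn) (Nat.prod_primeFactors_dvd n)
  have h2 : (2 : ℝ) ^ n.primeFactors.card ≤ Real.exp T := by
    have : ((2 ^ n.primeFactors.card : ℕ) : ℝ) ≤ n := by exact_mod_cast h0
    push_cast at this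
    exact this.trans h
  have h3 : (n.primeFactors.card : ℝ) * Real.log 2 ≤ T := by
    have := Real.log_le_log (by positivity) h2
    rwa [Real.log_pow, Real.log_exp] at this
  have h4 := Real.log_two_gt_d9
  have h5 : (0 : ℝ) ≤ (n.primeFactors.card : ℝ) := Nat.cast_nonneg _
  nlinarith

lemma ev_size (D : ℕ) : ∀ᶠ L : ℝ in atTop, 3 * (D * L ^ 2) ≤ Real.exp (L / 50) ∧ L ^ (1 / 20 : ℝ) ≤ L / 100 := by
  have h1 : ∀ᶠ L : ℝ in atTop, 3 * (D * L ^ 2) ≤ Real.exp (L / 50) := by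
    have h := (isLittleO_pow_exp_pos_mul_atTop 2 (show (0 : ℝ) < 1 / 50 by norm_num)).def
      (show (0 : ℝ) < 1 / (3 * (D + 1)) by positivity)
    filter_upwards [h] with L hL
    rw [Real.norm_eq_abs, Real.norm_eq_abs, abs_of_nonneg (by positivity), abs_of_nonneg (Real.exp_pos _).le,
      one_div, ← div_eq_inv_mul, le_div_iff₀ (by positivity)] at hL
    have h2 : (0 : ℝ) ≤ L ^ 2 := sq_nonneg L
    calc 3 * (D * L ^ 2) ≤ L ^ 2 * (3 * (D + 1)) := by nlinarith
      _ ≤ Real.exp (1 / 50 * L) := hL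
      _ = _ := by congr 1; ring
  have h2 : ∀ᶠ L : ℝ in atTop, L ^ (1 / 20 : ℝ) ≤ L / 100 := by
    filter_upwards [eventually_ge_atTop (10000 : ℝ)] with L hL
    have h1 : L ^ (1 / 20 : ℝ) ≤ L ^ (1 / 2 : ℝ) :=
      Real.rpow_le_rpow_of_exponent_le (by linarith) (by norm_num)
    rw [← Real.sqrt_eq_rpow] at h1
    have h2 : (100 : ℝ) ≤ √L := by
      rw [show (100 : ℝ) = √(100 ^ 2) by rw [Real.sqrt_sq (by norm_num)]]
      exact Real.sqrt_le_sqrt (by linarith)
    have h3 := Real.mul_self_sqrt (show 0 ≤ L by linarith)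
    nlinarith
  exact h1.and h2

theorem core {ι : Type} [Finite ι] (f : ι → ℤ[X]) (hf : ∀ i, Irreducible (f i)) (hd : ∀ i, 0 < (f i).natDegree) :
    ∃ c : ℝ, 0 < c ∧ ∃ X₀ : ℕ, ∀ X : ℕ, X₀ ≤ X → ∀ (k : ℕ) (j : Fin k → ι) (a b : Fin k → ℤ),
    (∀ s, a s ≠ 0) → (∀ s, |(a s : ℝ)| ≤ Real.exp (Real.log X ^ 2)) →
    (∀ s, |(b s : ℝ)| ≤ Real.exp (Real.log X ^ 2)) →
    ∑ s, (((a s).natAbs : ℝ) / (Nat.totient (a s).natAbs : ℝ)) ^ (f (j s)).natDegree ≤
      c * (Real.log X * Real.log (Real.log X)) →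
    ∀ M : ℤ, ∃ n : ℤ, M < n ∧ n ≤ M + X ∧ ∀ s, ¬ ((f (j s)).eval (a s * n + b s)).natAbs.Prime := by
  classical
  obtain ⟨D, hD⟩ := unifN (fun i x => (f i).natDegree ≤ x) (fun i x y h1 h2 => h2.trans h1) (fun i => ⟨_, le_rfl⟩)
  obtain ⟨B₀, hB₀⟩ := unifN (fun i x => ∀ p : ℕ, p.Prime → x < p → rho (f i) p ≤ (f i).natDegree ∧
      ¬ (p : ℤ) ∣ (f i).leadingCoeff) (fun i x y h1 h2 p hp hy => h2 p hp (by omega)) (fun i => by
    obtain ⟨B, hB⟩ := rho_le (f i) (hf i).ne_zero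
    refine ⟨B + (f i).leadingCoeff.natAbs, fun p hp hlt => ⟨hB p hp (by omega), fun hdvd => ?_⟩⟩
    have h0 : 0 < (f i).leadingCoeff.natAbs := Int.natAbs_pos.2 (leadingCoeff_ne_zero.2 (hf i).ne_zero)
    have := Nat.le_of_dvd h0 (Int.natCast_dvd.1 hdvd)
    omega)
  obtain ⟨C, hC0, hC⟩ := unif (fun i x => ∀ w : ℝ, 3 ≤ w → Real.log (Real.log w) - x ≤ Sg (rho (f i)) w ∧
      Sg (rho (f i)) w ≤ Real.log (Real.log w) + x)
    (fun i x y h1 h2 w hw => ⟨by linarith [(h2 w hw).1], by linarith [(h2 w hw).2]⟩) (fun i => by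
    obtain ⟨C1, h1⟩ := mertens_lower (f i) (hf i) (hd i)
    obtain ⟨C2, h2⟩ := mertens_upper (f i) (hf i) (hd i)
    refine ⟨max C1 C2, fun w hw => ⟨?_, ?_⟩⟩
    · linarith [h1 w hw, le_max_left C1 C2]
    · linarith [h2 w hw, le_max_right C1 C2])
  obtain ⟨E₀, hE₀0, hE₀⟩ := unif (ι := ι × ι) (fun v x => ∀ L : ℝ, x ≤ L → ∀ a b a' b' : ℤ,
      |(a : ℝ)| ≤ Real.exp (L ^ 2) → |(b : ℝ)| ≤ Real.exp (L ^ 2) → |(a' : ℝ)| ≤ Real.exp (L ^ 2) →
      |(b' : ℝ)| ≤ Real.exp (L ^ 2) →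
      |(((sub (f v.1) a b).resultant (sub (f v.2) a' b') (f v.1).natDegree (f v.2).natDegree : ℤ) : ℝ)| ≤
        Real.exp (L ^ 3)) (fun i x y h1 h2 L hL => h2 L (h1.trans hL)) (fun v => by
    obtain ⟨K, hK, D', h⟩ := res_bound (f v.1) (f v.2) (f v.1).natDegree (f v.2).natDegree
    refine ⟨K + D' + 1, fun L hL a b a' b' h1 h2 h3 h4 => ?_⟩
    have hL1 : 1 ≤ L := by
      have : (0 : ℝ) ≤ D' := Nat.cast_nonneg _
      linarith
    refine (h a b a' b' (Real.exp (L ^ 2)) (Real.one_le_exp (by positivity)) h1 h2 h3 h4).trans ?_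
    have h5 : K ≤ Real.exp (K * L ^ 2) := by
      have h6 := Real.add_one_le_exp (K * L ^ 2)
      have h7 : K * 1 ≤ K * L ^ 2 := mul_le_mul_of_nonneg_left (one_le_pow₀ hL1) hK.le
      linarith
    calc K * Real.exp (L ^ 2) ^ D' ≤ Real.exp (K * L ^ 2) * Real.exp (L ^ 2) ^ D' :=
          mul_le_mul_of_nonneg_right h5 (by positivity)
      _ = Real.exp ((K + D') * L ^ 2) := by
          rw [← Real.exp_nat_mul, ← Real.exp_add]
          congr 1
          ring
      _ ≤ Real.exp (L ^ 3) := by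
          apply Real.exp_le_exp.2
          have h6 : (K + D') ≤ L := by linarith
          calc (K + D') * L ^ 2 ≤ L * L ^ 2 := mul_le_mul_of_nonneg_right h6 (by positivity)
            _ = L ^ 3 := by ring)
  obtain ⟨c₂, hc₂, y₀, hy₀, hRL⟩ := rough_lowerD (D + 1) (4 * C + 1 + D) (by
    have : (0 : ℝ) ≤ D := Nat.cast_nonneg _
    linarith)
  obtain ⟨c₁, hc₁, X₁, hcov⟩ := covering_hitD (D + 1) (c₂ / 3) (by
    have : (0 : ℝ) ≤ D := Nat.cast_nonneg _
    linarith) (by positivity)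
  obtain ⟨c₀, hc₀⟩ : ∃ c₀ : ℝ, c₀ = min c₁ 1 := ⟨_, rfl⟩
  have hc00 : 0 < c₀ := by rw [hc₀]; exact lt_min hc₁ one_pos
  have hc01 : c₀ ≤ c₁ := by rw [hc₀]; exact min_le_left _ _
  have hc02 : c₀ ≤ 1 := by rw [hc₀]; exact min_le_right _ _
  refine ⟨c₀ * Real.exp (-(C + B₀)) / 2, by positivity, ?_⟩
  have tlog : Tendsto (fun n : ℕ => Real.log (n : ℝ)) atTop atTop := Real.tendsto_log_atTop.comp tendsto_natCast_atTop_atTop
  have tloglog : Tendsto (fun n : ℕ => Real.log (Real.log (n : ℝ))) atTop atTop := Real.tendsto_log_atTop.comp tlog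
  obtain ⟨X₂, hX₂⟩ := eventually_atTop.1 ((tlog.eventually_ge_atTop (1000 + B₀ + E₀ + y₀)).and
    ((tloglog.eventually_ge_atTop (10 + 2 * Real.log (D + 1))).and (tlog.eventually (ev_size D))))
  refine ⟨max (max X₂ ⌈X₁⌉₊) 2, fun X hX k j a b ha0 haX hbX hsum M => ?_⟩
  obtain ⟨a1, a2, a3, a4⟩ := hX₂ X (by omega)
  have hXX1 : X₁ ≤ X := by
    have : (⌈X₁⌉₊ : ℝ) ≤ X := by exact_mod_cast (by omega : ⌈X₁⌉₊ ≤ X)
    exact (Nat.le_ceil _).trans this
  have hX2 : 2 ≤ X := by omega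
  have hX0 : (0 : ℝ) < X := by exact_mod_cast (by omega : 0 < X)
  obtain ⟨L, hL⟩ : ∃ L, L = Real.log (X : ℝ) := ⟨_, rfl⟩
  rw [← hL] at a1 a2 a3 a4 hsum
  simp only [← hL] at haX hbX
  have hB0r : (0 : ℝ) ≤ B₀ := Nat.cast_nonneg _
  have hD0r : (0 : ℝ) ≤ D := Nat.cast_nonneg _
  have hL1000 : 1000 ≤ L := by linarith
  have hLB : (B₀ : ℝ) ≤ L := by linarith
  have hLE : E₀ ≤ L := by linarith
  have hLy : y₀ ≤ L := by linarith
  have hL0 : 0 < L := by linarith
  have hL3 : L ≤ L ^ 3 := le_self_pow₀ (by linarith) (by norm_num)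
  obtain ⟨l, hl⟩ : ∃ l, l = Real.log L := ⟨_, rfl⟩
  rw [← hl] at a2 hsum
  have hlogD : 0 ≤ Real.log (D + 1 : ℝ) := Real.log_nonneg (by linarith)
  have hl10 : 10 ≤ l := by linarith
  have hXexp : (X : ℝ) = Real.exp L := by rw [hL, Real.exp_log hX0]
  have hXr : ∀ s : ℝ, (X : ℝ) ^ s = Real.exp (s * L) := by
    intro s
    rw [hXexp, ← Real.exp_mul, mul_comm]
  -- sieving by small primes
  obtain ⟨w, hw⟩ : ∃ w : ℝ, w = L / 100 := ⟨_, rfl⟩
  have hw3 : 3 ≤ w := by rw [hw]; linarith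
  have hw0 : 0 ≤ w := by linarith
  have hlogw : l / 2 ≤ Real.log w := by
    rw [hw, Real.log_div hL0.ne' (by norm_num), ← hl]
    have h1 : Real.log 100 ≤ 5 := by
      have h2 : Real.log 100 ≤ Real.log (Real.exp 5) := by
        apply Real.log_le_log (by norm_num)
        have h3 : (2.7 : ℝ) ≤ Real.exp 1 := by linarith [Real.exp_one_gt_d9]
        calc (100 : ℝ) ≤ 2.7 ^ 5 := by norm_num
          _ ≤ Real.exp 1 ^ 5 := by gcongr
          _ = Real.exp 5 := by rw [← Real.exp_nat_mul]; norm_num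
      rwa [Real.log_exp] at h2
    linarith
  obtain ⟨n₀, hn₀⟩ := greedy (univ : Finset (Fin k)) (fun p s x => (p : ℤ) ∣ (f (j s)).eval (a s * x + b s))
    (PR w) (fun p hp => PR_prime hp) (fun p _ s _ x y hxy => by
      have h1 := Polynomial.sub_dvd_eval_sub (a s * x + b s) (a s * y + b s) (f (j s))
      have h2 : a s * x + b s - (a s * y + b s) = a s * (x - y) := by ring
      rw [h2] at h1
      have h3 : (p : ℤ) ∣ (f (j s)).eval (a s * x + b s) - (f (j s)).eval (a s * y + b s) :=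
        (hxy.mul_left (a s)).trans h1
      exact (dvd_iff_dvd_of_dvd_sub h3))
  obtain ⟨I₂, hI₂⟩ : ∃ I₂ : Finset (Fin k), I₂ = univ.filter (fun s => ∀ p ∈ PR w,
    ¬ (p : ℤ) ∣ (f (j s)).eval (a s * n₀ + b s)) := ⟨_, rfl⟩
  have hI₂c : (I₂.card : ℝ) ≤ c₀ * L := by
    have h1 : (I₂.card : ℝ) ≤ ∑ s : Fin k, ∏ p ∈ PR w,
        (1 - (nu (fun x => (p : ℤ) ∣ (f (j s)).eval (a s * x + b s)) p : ℝ) / (p : ℝ)) := by
      rw [hI₂]
      convert hn₀ using 3
      ext s
      simp only [mem_filter]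
    have h2 : ∑ s : Fin k, ∏ p ∈ PR w,
        (1 - (nu (fun x => (p : ℤ) ∣ (f (j s)).eval (a s * x + b s)) p : ℝ) / (p : ℝ)) ≤
        ∑ s : Fin k, Real.exp (C + B₀) * (((a s).natAbs : ℝ) / (Nat.totient (a s).natAbs : ℝ)) ^ (f (j s)).natDegree /
          Real.log w := by
      refine sum_le_sum fun s _ => ?_
      exact density_le (f (j s)) (f (j s)).natDegree B₀ C (fun w hw => (hC (j s) w hw).1)
        (fun p hp hlt => (hB₀ (j s) p hp hlt).1) (ha0 s) (b s) w hw3
    have h3 : ∑ s : Fin k, Real.exp (C + B₀) * (((a s).natAbs : ℝ) / (Nat.totient (a s).natAbs : ℝ)) ^ (f (j s)).natDegree /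
          Real.log w = Real.exp (C + B₀) * (∑ s : Fin k,
          (((a s).natAbs : ℝ) / (Nat.totient (a s).natAbs : ℝ)) ^ (f (j s)).natDegree) / Real.log w := by
      rw [mul_sum, sum_div]
    refine (h1.trans h2).trans ?_
    rw [h3, div_le_iff₀ (by linarith)]
    calc Real.exp (C + B₀) * (∑ s : Fin k,
          (((a s).natAbs : ℝ) / (Nat.totient (a s).natAbs : ℝ)) ^ (f (j s)).natDegree) ≤
          Real.exp (C + B₀) * (c₀ * Real.exp (-(C + B₀)) / 2 * (L * l)) :=
          mul_le_mul_of_nonneg_left hsum (Real.exp_pos _).le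
      _ = (Real.exp (C + B₀) * Real.exp (-(C + B₀))) * (c₀ * L * (l / 2)) := by ring
      _ = c₀ * L * (l / 2) := by rw [← Real.exp_add, add_neg_cancel, Real.exp_zero, one_mul]
      _ ≤ c₀ * L * Real.log w := mul_le_mul_of_nonneg_left hlogw (by positivity)
  have hI₂L : (I₂.card : ℝ) ≤ L := hI₂c.trans (by nlinarith)
  -- the classes
  obtain ⟨G, hG⟩ : ∃ G : Fin k → ℤ[X], G = fun s => sub (f (j s)) (a s) (b s) := ⟨_, rfl⟩
  have hGe : ∀ s n, (G s).eval n = (f (j s)).eval (a s * n + b s) := fun s n => by rw [hG]; exact sub_eval _ _ _ _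
  have hGd : ∀ s, (G s).natDegree = (f (j s)).natDegree := fun s => by rw [hG]; exact sub_natDegree _ (ha0 s) _
  have hGl : ∀ s, (G s).leadingCoeff = (f (j s)).leadingCoeff * a s ^ (f (j s)).natDegree := fun s => by
    rw [hG]; exact sub_leadingCoeff _ (ha0 s) _
  have hGirr : ∀ s, Irreducible ((G s).map (Int.castRingHom ℚ)) := fun s => by
    rw [hG]; exact sub_irreducible _ (irr_map _ (hf _) (hd _)) (ha0 s) _
  obtain ⟨cl, hcl⟩ : ∃ cl : Fin k → Associates ℚ[X], cl = fun s => Associates.mk ((G s).map (Int.castRingHom ℚ)) :=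
    ⟨_, rfl⟩
  obtain ⟨R, hR⟩ : ∃ R : Finset (Associates ℚ[X]), R = I₂.image cl := ⟨_, rfl⟩
  have hRc : R.card ≤ I₂.card := by rw [hR]; exact card_image_le
  have hRL' : (R.card : ℝ) ≤ L := by
    have : (R.card : ℝ) ≤ I₂.card := by exact_mod_cast hRc
    exact this.trans hI₂L
  have hrep : ∀ ρ : R, ∃ i ∈ I₂, cl i = ρ := fun ρ => by
    have h1 : (ρ : Associates ℚ[X]) ∈ I₂.image cl := hR ▸ ρ.2
    rw [mem_image] at h1
    exact h1
  choose rep hrepI hrep2 using hrep
  -- the exceptional primes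
  obtain ⟨rs, hrs⟩ : ∃ rs : R × R → ℤ, rs = fun v => (G (rep v.1)).resultant (G (rep v.2))
    (f (j (rep v.1))).natDegree (f (j (rep v.2))).natDegree := ⟨_, rfl⟩
  have hrs0 : ∀ v : R × R, v.1 ≠ v.2 → rs v ≠ 0 := by
    intro v hv
    rw [hrs, hG]
    refine res_ne _ _ (ha0 _) (ha0 _) _ _ ?_
    have h1 := hGirr (rep v.1)
    have h2 := hGirr (rep v.2)
    rw [hG] at h1 h2
    refine coprime_of_not_assoc h1 h2 fun hA => hv ?_
    apply Subtype.ext
    rw [← hrep2 v.1, ← hrep2 v.2, hcl, hG]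
    exact Associates.mk_eq_mk_iff_associated.2 hA
  obtain ⟨B, hB⟩ : ∃ B : Finset ℕ, B = (univ : Finset R).biUnion (fun ρ => (a (rep ρ)).natAbs.primeFactors) ∪
    ((univ : Finset (R × R)).filter (fun v => v.1 ≠ v.2)).biUnion (fun v => (rs v).natAbs.primeFactors) := ⟨_, rfl⟩
  have hcast : ∀ z : ℤ, ((z.natAbs : ℕ) : ℝ) = |(z : ℝ)| := fun z => by
    rw [Nat.cast_natAbs, Int.cast_abs]
  have hBc : (B.card : ℝ) ≤ L ^ 6 := by
    have e1 : ∀ ρ : R, (((a (rep ρ)).natAbs.primeFactors.card : ℕ) : ℝ) ≤ 3 / 2 * L ^ 3 := by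
      intro ρ
      refine natlog_le (Int.natAbs_ne_zero.2 (ha0 _)) (by positivity) ?_
      rw [hcast]
      refine (haX _).trans (Real.exp_le_exp.2 ?_)
      exact pow_le_pow_right₀ (by linarith) (by norm_num)
    have e2 : ∀ v : R × R, v.1 ≠ v.2 → (((rs v).natAbs.primeFactors.card : ℕ) : ℝ) ≤ 3 / 2 * L ^ 3 := by
      intro v hv
      refine natlog_le (Int.natAbs_ne_zero.2 (hrs0 v hv)) (by positivity) ?_
      rw [hcast, hrs, hG]
      exact hE₀ (j (rep v.1), j (rep v.2)) L hLE _ _ _ _ (haX _) (hbX _) (haX _) (hbX _)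
    have h1 : ((((univ : Finset R).biUnion (fun ρ => (a (rep ρ)).natAbs.primeFactors)).card : ℕ) : ℝ) ≤
        R.card * (3 / 2 * L ^ 3) := by
      have h2 : ((((univ : Finset R).biUnion (fun ρ => (a (rep ρ)).natAbs.primeFactors)).card : ℕ) : ℝ) ≤
          ∑ ρ : R, (((a (rep ρ)).natAbs.primeFactors.card : ℕ) : ℝ) := by exact_mod_cast card_biUnion_le
      refine h2.trans ((sum_le_sum fun ρ _ => e1 ρ).trans ?_)
      rw [sum_const, card_univ, Fintype.card_coe, nsmul_eq_mul]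
    have h3 : (((((univ : Finset (R × R)).filter (fun v => v.1 ≠ v.2)).biUnion
        (fun v => (rs v).natAbs.primeFactors)).card : ℕ) : ℝ) ≤ (R.card * R.card : ℕ) * (3 / 2 * L ^ 3) := by
      have h2 : (((((univ : Finset (R × R)).filter (fun v => v.1 ≠ v.2)).biUnion
          (fun v => (rs v).natAbs.primeFactors)).card : ℕ) : ℝ) ≤
          ∑ v ∈ (univ : Finset (R × R)).filter (fun v => v.1 ≠ v.2), (((rs v).natAbs.primeFactors.card : ℕ) : ℝ) := by
        exact_mod_cast card_biUnion_le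
      refine h2.trans ((sum_le_sum fun v hv => e2 v (mem_filter.1 hv).2).trans ?_)
      rw [sum_const, nsmul_eq_mul]
      apply mul_le_mul_of_nonneg_right _ (by positivity)
      have : ((univ : Finset (R × R)).filter (fun v => v.1 ≠ v.2)).card ≤ R.card * R.card := by
        refine (card_le_card (filter_subset _ _)).trans ?_
        rw [card_univ, Fintype.card_prod, Fintype.card_coe]
      exact_mod_cast this
    have h4 : (B.card : ℝ) ≤ R.card * (3 / 2 * L ^ 3) + (R.card * R.card : ℕ) * (3 / 2 * L ^ 3) := by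
      rw [hB]
      refine le_trans ?_ (add_le_add h1 h3)
      exact_mod_cast card_union_le _ _
    refine h4.trans ?_
    push_cast
    calc (R.card : ℝ) * (3 / 2 * L ^ 3) + R.card * R.card * (3 / 2 * L ^ 3) ≤
          L * (3 / 2 * L ^ 3) + L * L * (3 / 2 * L ^ 3) :=
          add_le_add (mul_le_mul_of_nonneg_right hRL' (by positivity))
            (mul_le_mul_of_nonneg_right (mul_le_mul hRL' hRL' (Nat.cast_nonneg _) hL0.le) (by positivity))
      _ ≤ L ^ 6 := by
          have e5 : L ^ 6 = L * (L * L ^ 4) := by ring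
          have e6 : L * L * (3 / 2 * L ^ 3) = 3 / 2 * (L * L ^ 4) := by ring
          have e7 : L * (3 / 2 * L ^ 3) = 3 / 2 * L ^ 4 := by ring
          have e8 : L ^ 4 ≤ L * L ^ 4 := le_mul_of_one_le_left (by positivity) (by linarith)
          have e9 : 1000 * (L * L ^ 4) ≤ L * (L * L ^ 4) := mul_le_mul_of_nonneg_right hL1000 (by positivity)
          have e10 : 0 ≤ L * L ^ 4 := by positivity
          rw [e5, e6, e7]
          linarith
  have hBa : ∀ p : ℕ, p.Prime → p ∉ B → ∀ ρ : R, ¬ (p : ℤ) ∣ a (rep ρ) := by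
    intro p hp hpB ρ h
    apply hpB
    rw [hB, mem_union]
    left
    rw [mem_biUnion]
    exact ⟨ρ, mem_univ _, Nat.mem_primeFactors.2 ⟨hp, Int.natCast_dvd.1 h, Int.natAbs_ne_zero.2 (ha0 _)⟩⟩
  have hL3B : ∀ p : ℕ, L ^ 3 < (p : ℝ) → B₀ < p := by
    intro p hp
    have : (B₀ : ℝ) < p := by linarith
    exact_mod_cast this
  -- the sets
  obtain ⟨E, hE⟩ : ∃ E : ℝ, E = Real.exp (L / 100) := ⟨_, rfl⟩
  have hE1 : 1 ≤ E := by rw [hE]; exact Real.one_le_exp (by positivity)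
  have hE2 : E ≤ Real.exp (L / 100) := hE.le
  have hE3 : Real.exp (L ^ (1 / 20 : ℝ)) ≤ E := by rw [hE]; exact Real.exp_le_exp.2 a4
  obtain ⟨W, hW⟩ : ∃ W : ℕ, W = WW w := ⟨_, rfl⟩
  have hW1 : 1 ≤ W := by rw [hW]; exact WW_pos w
  have hWR : (0 : ℝ) < W := by exact_mod_cast hW1
  have hWle : (W : ℝ) ≤ Real.exp (L / 50) := by
    rw [hW, hw]
    exact WW_le hL0.le
  obtain ⟨F, hF⟩ : ∃ F : Finset ℤ, F = (Ioc M (M + X)).filter (fun n : ℤ => (W : ℤ) ∣ n - n₀) := ⟨_, rfl⟩
  obtain ⟨Ex, hEx⟩ : ∃ Ex : Finset ℤ, Ex = (Ioc M (M + X)).filter (fun n : ℤ => ∃ s : Fin k,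
    (((G s).eval n).natAbs : ℝ) ≤ E) := ⟨_, rfl⟩
  have hkk : (k : ℝ) ≤ L ^ 2 := by
    have h1 : (k : ℝ) ≤ ∑ s : Fin k, (((a s).natAbs : ℝ) / (Nat.totient (a s).natAbs : ℝ)) ^ (f (j s)).natDegree := by
      calc (k : ℝ) = ∑ _s : Fin k, (1 : ℝ) := by simp
        _ ≤ _ := by
            refine sum_le_sum fun s _ => ?_
            have h1 : 0 < (a s).natAbs := Int.natAbs_pos.2 (ha0 s)
            have h2 : (0 : ℝ) < Nat.totient (a s).natAbs := by exact_mod_cast Nat.totient_pos.2 h1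
            apply one_le_pow₀
            rw [le_div_iff₀ h2, one_mul]
            exact_mod_cast Nat.totient_le _
    refine (h1.trans hsum).trans ?_
    have h2 : c₀ * Real.exp (-(C + B₀)) / 2 ≤ 1 := by
      have h3 : Real.exp (-(C + B₀)) ≤ 1 := Real.exp_le_one_iff.2 (by linarith)
      have h4 : c₀ * Real.exp (-(C + B₀)) ≤ 1 * 1 := mul_le_mul hc02 h3 (Real.exp_pos _).le zero_le_one
      linarith
    have h3 : l ≤ L := by
      rw [hl]
      exact (Real.log_le_sub_one_of_pos hL0).trans (by linarith)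
    calc c₀ * Real.exp (-(C + B₀)) / 2 * (L * l) ≤ 1 * (L * L) :=
          mul_le_mul h2 (mul_le_mul_of_nonneg_left h3 hL0.le) (by positivity) zero_le_one
      _ = L ^ 2 := by ring
  have hExc : (Ex.card : ℝ) ≤ Real.exp (3 / 100 * L) := by
    have h1 : Ex ⊆ (univ : Finset (Fin k)).biUnion (fun s => (Ioc M (M + X)).filter (fun n : ℤ =>
        (((G s).eval n).natAbs : ℝ) ≤ E)) := by
      intro n hn
      rw [hEx, mem_filter] at hn
      obtain ⟨hn1, s, hs⟩ := hn
      rw [mem_biUnion]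
      exact ⟨s, mem_univ _, mem_filter.2 ⟨hn1, hs⟩⟩
    have h2 : (Ex.card : ℝ) ≤ ∑ s : Fin k, (((Ioc M (M + X)).filter (fun n : ℤ =>
        (((G s).eval n).natAbs : ℝ) ≤ E)).card : ℝ) := by
      have := (card_le_card h1).trans card_biUnion_le
      exact_mod_cast this
    have h3 : ∑ s : Fin k, (((Ioc M (M + X)).filter (fun n : ℤ => (((G s).eval n).natAbs : ℝ) ≤ E)).card : ℝ) ≤
        ∑ s : Fin k, (D : ℝ) * (3 * E) := by
      refine sum_le_sum fun s _ => ?_
      refine (exc_card (G s) (by rw [hGd]; exact hd _) _ E (by linarith)).trans ?_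
      have h4 : ((G s).natDegree : ℝ) ≤ D := by rw [hGd]; exact_mod_cast hD _
      calc ((G s).natDegree : ℝ) * (2 * E + 1) ≤ D * (2 * E + 1) := mul_le_mul_of_nonneg_right h4 (by linarith)
        _ ≤ D * (3 * E) := mul_le_mul_of_nonneg_left (by linarith) hD0r
    refine (h2.trans h3).trans ?_
    rw [sum_const, card_univ, Fintype.card_fin, nsmul_eq_mul]
    calc (k : ℝ) * (D * (3 * E)) ≤ L ^ 2 * (D * (3 * E)) := mul_le_mul_of_nonneg_right hkk (by positivity)
      _ = (3 * (D * L ^ 2)) * E := by ring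
      _ ≤ Real.exp (L / 50) * Real.exp (L / 100) := mul_le_mul a3 hE2 (by linarith) (Real.exp_pos _).le
      _ = _ := by rw [← Real.exp_add]; congr 1; ring
  have hexp : Real.exp (1 / 20 * L) + Real.exp (3 / 100 * L) ≤ Real.exp (1 / 10 * L) := by
    have h1 : Real.exp (3 / 100 * L) ≤ Real.exp (1 / 20 * L) := Real.exp_le_exp.2 (by linarith)
    have h2 : Real.exp (1 / 10 * L) = Real.exp (1 / 20 * L) * Real.exp (1 / 20 * L) := by
      rw [← Real.exp_add]; congr 1; ring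
    have h3 : 2 ≤ Real.exp (1 / 20 * L) := by
      have := Real.add_one_le_exp (1 / 20 * L)
      linarith
    rw [h2]
    nlinarith
  obtain ⟨N, hN⟩ : ∃ N : ℝ, N = ((M + X : ℤ) - (M : ℝ)) / W := ⟨_, rfl⟩
  have hN' : N = X / W := by rw [hN]; push_cast; congr 1; ring
  have hNge : (X : ℝ) ^ (1 / 2 : ℝ) ≤ N := by
    rw [hN', le_div_iff₀ hWR, hXr]
    calc Real.exp (1 / 2 * L) * W ≤ Real.exp (1 / 2 * L) * Real.exp (L / 50) :=
          mul_le_mul_of_nonneg_left hWle (Real.exp_pos _).le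
      _ = Real.exp (26 / 50 * L) := by rw [← Real.exp_add]; congr 1; ring
      _ ≤ X := by rw [hXexp]; exact Real.exp_le_exp.2 (by linarith)
  -- the count
  have hcount : ∀ (T : Finset ℕ) (s : ℕ → Fin k), (∏ p ∈ T, (p : ℝ)) ≤ (X : ℝ) ^ (1 / 4 : ℝ) →
      (∀ p ∈ T, p.Prime ∧ L ^ 3 < p ∧ ¬ (p : ℤ) ∣ a (s p)) →
      |(((F \ Ex).filter (fun n => ∀ p ∈ T, (p : ℤ) ∣ (f (j (s p))).eval (a (s p) * n + b (s p)))).card : ℝ) -
        N * ∏ p ∈ T, (rho (f (j (s p))) p : ℝ) / (p : ℝ)| ≤ Real.exp (1 / 10 * L) := by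
    intro T s hTX hT
    have h1 := count_gen M (M + X) (by omega) W hW1 n₀ T (fun p hp => ⟨(hT p hp).1, by
        rw [hW]
        refine PR_not_dvd hw0 (hT p hp).1 ?_
        have := (hT p hp).2.1
        rw [hw]
        linarith⟩) (fun p x => (p : ℤ) ∣ (f (j (s p))).eval (a (s p) * x + b (s p))) (fun p _ x y hxy => by
        have h1 := Polynomial.sub_dvd_eval_sub (a (s p) * x + b (s p)) (a (s p) * y + b (s p)) (f (j (s p)))
        have h2 : a (s p) * x + b (s p) - (a (s p) * y + b (s p)) = a (s p) * (x - y) := by ring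
        rw [h2] at h1
        exact dvd_iff_dvd_of_dvd_sub ((hxy.mul_left (a (s p))).trans h1))
    have h2 : ∀ p ∈ T, nu (fun x => (p : ℤ) ∣ (f (j (s p))).eval (a (s p) * x + b (s p))) p = rho (f (j (s p))) p :=
      fun p hp => nu_sub _ _ _ p (hT p hp).1 (hT p hp).2.2
    have h3 : ∏ p ∈ T, (nu (fun x => (p : ℤ) ∣ (f (j (s p))).eval (a (s p) * x + b (s p))) p : ℝ) =
        ∏ p ∈ T, (rho (f (j (s p))) p : ℝ) := prod_congr rfl fun p hp => by rw [h2 p hp]
    have h4 : ∏ p ∈ T, (nu (fun x => (p : ℤ) ∣ (f (j (s p))).eval (a (s p) * x + b (s p))) p : ℝ) / (p : ℝ) =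
        ∏ p ∈ T, (rho (f (j (s p))) p : ℝ) / (p : ℝ) := prod_congr rfl fun p hp => by rw [h2 p hp]
    rw [h3, h4, ← hN] at h1
    have h5 : ∏ p ∈ T, (rho (f (j (s p))) p : ℝ) ≤ Real.exp (1 / 20 * L) := by
      refine err2 (D + 1) (by omega) L (by linarith) (by push_cast; rw [← hl]; linarith) T
        (fun p => rho (f (j (s p))) p) (fun p hp => (hT p hp).2.1) (fun p hp => ?_) (by rw [← hXr]; exact hTX)
      have h6 := (hB₀ (j (s p)) p (hT p hp).1 (hL3B p (hT p hp).2.1)).1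
      exact h6.trans ((hD _).trans (by omega))
    obtain ⟨F', hF'⟩ : ∃ F' : Finset ℤ, F' = F.filter (fun n => ∀ p ∈ T, (p : ℤ) ∣ (f (j (s p))).eval (a (s p) * n + b (s p))) :=
      ⟨_, rfl⟩
    have h6 : |(F'.card : ℝ) - N * ∏ p ∈ T, (rho (f (j (s p))) p : ℝ) / (p : ℝ)| ≤ Real.exp (1 / 20 * L) := by
      refine le_trans (le_of_eq ?_) (h1.trans h5)
      congr 3
      rw [hF', hF, Finset.filter_filter]
      apply congrArg
      ext n
      simp only [mem_filter]
    have h7 : (((F \ Ex).filter (fun n => ∀ p ∈ T, (p : ℤ) ∣ (f (j (s p))).eval (a (s p) * n + b (s p)))).card : ℝ) ≤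
        F'.card := by
      rw [hF']
      exact_mod_cast card_le_card (filter_subset_filter _ sdiff_subset)
    have h8 : (F'.card : ℝ) ≤
        ((F \ Ex).filter (fun n => ∀ p ∈ T, (p : ℤ) ∣ (f (j (s p))).eval (a (s p) * n + b (s p)))).card + Ex.card := by
      have h9 : F' ⊆ (F \ Ex).filter (fun n => ∀ p ∈ T, (p : ℤ) ∣ (f (j (s p))).eval (a (s p) * n + b (s p))) ∪ Ex := by
        intro n hn
        rw [hF', mem_filter] at hn
        rw [mem_union, mem_filter, Finset.mem_sdiff]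
        by_cases h : n ∈ Ex
        · exact Or.inr h
        · exact Or.inl ⟨⟨hn.1, h⟩, hn.2⟩
      exact_mod_cast (card_le_card h9).trans (card_union_le _ _)
    rw [abs_le] at h6 ⊢
    constructor
    · linarith [h6.1]
    · have h10 : 0 ≤ Real.exp (3 / 100 * L) := (Real.exp_pos _).le
      linarith [h6.2]
  -- the end
  have hend : ∀ n ∈ F \ Ex, (∀ ρ : R, ∃ p : ℕ, p.Prime ∧ L ^ 3 < (p : ℝ) ∧ (p : ℝ) ≤ E ∧ p ∉ B ∧
      (p : ℤ) ∣ (f (j (rep ρ))).eval (a (rep ρ) * n + b (rep ρ))) →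
      ∃ n : ℤ, M < n ∧ n ≤ M + X ∧ ∀ s, ¬ ((f (j s)).eval (a s * n + b s)).natAbs.Prime := by
    intro n hn hcv
    rw [Finset.mem_sdiff, hF, mem_filter, mem_Ioc] at hn
    obtain ⟨⟨⟨hn1, hn2⟩, hn3⟩, hn4⟩ := hn
    refine ⟨n, hn1, hn2, fun s hprime => ?_⟩
    have hbig : E < (((f (j s)).eval (a s * n + b s)).natAbs : ℝ) := by
      by_contra hcon
      push Not at hcon
      apply hn4
      rw [hEx, mem_filter, mem_Ioc]
      exact ⟨⟨hn1, hn2⟩, s, by rw [hGe]; exact hcon⟩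
    suffices h : ∃ p : ℕ, p.Prime ∧ (p : ℝ) ≤ E ∧ (p : ℤ) ∣ (f (j s)).eval (a s * n + b s) by
      obtain ⟨p, hp, hpE, hpd⟩ := h
      have h1 : p ∣ ((f (j s)).eval (a s * n + b s)).natAbs := Int.natCast_dvd.1 hpd
      have h2 := (Nat.prime_dvd_prime_iff_eq hp hprime).1 h1
      rw [← h2] at hbig
      linarith
    by_cases hs : s ∈ I₂
    · have hρ : cl s ∈ R := by rw [hR]; exact mem_image_of_mem _ hs
      obtain ⟨p, hp, hp3, hpE, hpB, hpd⟩ := hcv ⟨cl s, hρ⟩
      refine ⟨p, hp, hpE, ?_⟩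
      obtain ⟨t, ht⟩ : ∃ t, t = rep ⟨cl s, hρ⟩ := ⟨_, rfl⟩
      have hta : ¬ (p : ℤ) ∣ a t := by rw [ht]; exact hBa p hp hpB _
      have h1 : cl t = cl s := by rw [ht]; exact hrep2 _
      rw [← ht] at hpd
      have hA : Associated ((G t).map (Int.castRingHom ℚ)) ((G s).map (Int.castRingHom ℚ)) := by
        rw [hcl] at h1
        exact Associates.mk_eq_mk_iff_associated.1 h1
      have h2 := transfer (G t) (G s) hA n
      rw [hGe, hGe] at h2
      have h3 : (p : ℤ) ∣ (G t).leadingCoeff * (f (j s)).eval (a s * n + b s) := by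
        rw [h2]
        exact Dvd.dvd.mul_left hpd _
      refine ((Nat.prime_iff_prime_int.1 hp).dvd_or_dvd h3).resolve_left ?_
      rw [hGl]
      intro h4
      rcases (Nat.prime_iff_prime_int.1 hp).dvd_or_dvd h4 with h5 | h5
      · exact (hB₀ (j t) p hp (hL3B p hp3)).2 h5
      · exact hta ((Nat.prime_iff_prime_int.1 hp).dvd_of_dvd_pow h5)
    · rw [hI₂, mem_filter, not_and] at hs
      have h1 := hs (mem_univ _)
      push Not at h1
      obtain ⟨p, hpS, hpd⟩ := h1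
      refine ⟨p, PR_prime hpS, ?_, ?_⟩
      · have h2 := PR_le hw0 hpS
        have h3 := Real.add_one_le_exp (L / 100)
        rw [hE]
        linarith
      · have h3 : (p : ℤ) ∣ n - n₀ := by
          refine dvd_trans ?_ hn3
          have : p ∣ W := by
            rw [hW]
            exact Finset.dvd_prod_of_mem _ hpS
          exact_mod_cast this
        have h4 := Polynomial.sub_dvd_eval_sub (a s * n + b s) (a s * n₀ + b s) (f (j s))
        have h5 : a s * n + b s - (a s * n₀ + b s) = a s * (n - n₀) := by ring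
        rw [h5] at h4
        have h6 := dvd_add ((h3.mul_left (a s)).trans h4) hpd
        rwa [sub_add_cancel] at h6
  rcases R.eq_empty_or_nonempty with hemp | hne
  · -- no classes
    have h1 := Pool.Agent.H256R2.SC.count_ap M (M + X) (by omega) W hW1 n₀
    rw [← hF, ← hN] at h1
    have h2 : (F \ Ex).Nonempty := by
      by_contra h
      rw [Finset.not_nonempty_iff_eq_empty, Finset.sdiff_eq_empty_iff_subset] at h
      have h3 : (F.card : ℝ) ≤ Ex.card := by exact_mod_cast card_le_card h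
      have h4 := (abs_le.1 h1).1
      rw [hXr] at hNge
      have h5 : Real.exp (3 / 100 * L) + 1 < Real.exp (1 / 2 * L) := by
        have e1 : Real.exp (1 / 2 * L) = Real.exp (3 / 100 * L) * Real.exp (47 / 100 * L) := by
          rw [← Real.exp_add]; congr 1; ring
        have e2 : 3 ≤ Real.exp (47 / 100 * L) := by
          have := Real.add_one_le_exp (47 / 100 * L)
          linarith
        have e3 : 1 ≤ Real.exp (3 / 100 * L) := Real.one_le_exp (by positivity)
        rw [e1]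
        nlinarith
      linarith
    obtain ⟨n, hn⟩ := h2
    refine hend n hn fun ρ => ?_
    have h3 : 0 < R.card := Finset.card_pos.2 ⟨_, ρ.2⟩
    rw [hemp, Finset.card_empty] at h3
    exact absurd h3 (lt_irrefl _)
  · have : Nonempty R := hne.to_subtype
    obtain ⟨n, hn, hnk⟩ := hcov X hXX1 B R (by
        rw [Fintype.card_coe, ← hL]
        have : (R.card : ℝ) ≤ I₂.card := by exact_mod_cast hRc
        exact this.trans (hI₂c.trans (mul_le_mul_of_nonneg_right hc01 hL0.le)))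
      (fun p n ρ => p ∉ B ∧ (p : ℤ) ∣ (f (j (rep ρ))).eval (a (rep ρ) * n + b (rep ρ)))
      (fun p ρ => if p.Prime ∧ L ^ 3 < (p : ℝ) ∧ p ∉ B then (rho (f (j (rep ρ))) p : ℝ) / (p : ℝ) else 0)
      (fun p ρ => by
        beta_reduce
        split_ifs with h
        · refine ⟨by positivity, ?_⟩
          have h1 := (hB₀ (j (rep ρ)) p h.1 (hL3B p h.2.1)).1
          have h2 : (rho (f (j (rep ρ))) p : ℝ) ≤ D + 1 := by exact_mod_cast h1.trans ((hD _).trans (by omega))
          exact div_le_div_of_nonneg_right h2 (Nat.cast_nonneg _)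
        · exact ⟨le_rfl, by positivity⟩)
      (by
        intro p hp _ n ρ σ h1 h2
        by_contra hne
        apply h1.1
        rw [hB, mem_union]
        right
        rw [mem_biUnion]
        refine ⟨(ρ, σ), mem_filter.2 ⟨mem_univ _, hne⟩, Nat.mem_primeFactors.2 ⟨hp, ?_, ?_⟩⟩
        · apply Int.natCast_dvd.1
          rw [hrs, hG]
          refine res_dvd _ _ (hd _) _ _ _ _ _ n ?_ ?_
          · rw [sub_eval]; exact h1.2
          · rw [sub_eval]; exact h2.2
        · exact Int.natAbs_ne_zero.2 (hrs0 (ρ, σ) hne))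
      (by
        intro ρ z x h1 h2 h3
        rw [← hL] at h1 h3 ⊢
        have hL3y : y₀ ≤ L ^ 3 := by linarith
        have h4 := hRL (L ^ 3) z B
          (fun p => if p.Prime ∧ L ^ 3 < (p : ℝ) ∧ p ∉ B then (rho (f (j (rep ρ))) p : ℝ) / (p : ℝ) else 0)
          hL3y (fun p => by
            beta_reduce
            split_ifs with h
            · refine ⟨by positivity, ?_⟩
              have h1 := (hB₀ (j (rep ρ)) p h.1 (hL3B p h.2.1)).1
              have h2 : (rho (f (j (rep ρ))) p : ℝ) ≤ D + 1 := by exact_mod_cast h1.trans ((hD _).trans (by omega))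
              exact div_le_div_of_nonneg_right h2 (Nat.cast_nonneg _)
            · exact ⟨le_rfl, by positivity⟩) (fun w hw1 hw2 => by
            have h5 := except_sum (rho (f (j (rep ρ)))) D C (fun w hw => (hC _ w hw).1) (fun w hw => (hC _ w hw).2)
              L (by linarith) (fun p hp hlt => by
                have h6 : B₀ < p := by
                  have : (B₀ : ℝ) < p := by linarith
                  exact_mod_cast this
                exact (hB₀ _ p hp h6).1.trans (hD _)) B hBc w hw1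
            refine h5.trans (le_of_eq ?_)
            refine sum_congr rfl fun p hp => ?_
            unfold SP at hp
            rw [mem_filter] at hp
            beta_reduce
            rw [if_pos hp.2]) x h1 h2
        rw [← hl]
        have h5 : c₂ / 3 * Real.log x / l = c₂ * Real.log x / Real.log (L ^ 3) := by
          rw [Real.log_pow, ← hl]
          push_cast
          field_simp
        rw [h5]
        exact h4)
      (F \ Ex) N (Real.exp (1 / 10 * L)) hNge (Real.exp_pos _).le (by rw [hXr])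
      (by
        intro T s hTX hT
        rw [← hL] at hT
        have h1 := hcount T (fun p => rep (s p)) hTX (fun p hp => ⟨(hT p hp).1, (hT p hp).2.1,
          hBa p (hT p hp).1 (hT p hp).2.2 _⟩)
        refine le_trans (le_of_eq ?_) h1
        congr 3
        · apply congrArg
          ext n
          simp only [mem_filter]
          refine and_congr_right fun _ => forall₂_congr fun p hp => ?_
          exact ⟨fun h => h.2, fun h => ⟨(hT p hp).2.2, h⟩⟩
        · refine prod_congr rfl fun p hp => ?_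
          rw [if_pos (hT p hp)])
    refine hend n hn fun ρ => ?_
    obtain ⟨p, h1, h2, h3, h4, h5⟩ := hnk ρ
    rw [← hL] at h2 h3
    exact ⟨p, h1, h2, h3.trans hE3, h4, h5.2⟩

end Pool.Agent.X10.PC
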