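import Pool.Agent.X10.PC.Res
import Pool.Agent.H474R2.PG.Final
import Pool.Agent.H474R2.GE.RhoHoms
import Pool.Agent.H474R2.GE.HomsUpper
import Pool.Agent.W154.PV.Cnt

set_option autoImplicit false

/-! # Roots of `f (a x + b)` modulo `p`; Mertens' theorem for the roots of `f` (helper10) -/

namespace Pool.Agent.X10.PC

open Polynomial Finset NumberField
open Pool.Agent.H474R2.PG (rho PR Sg card_range_zmod dvd_iff_zmod)

open scoped Classical in
lemma nu_sub (f : ℤ[X]) (a b : ℤ) (p : ℕ) (hp : p.Prime) (ha : ¬ (p : ℤ) ∣ a) :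
    Pool.Agent.W154.PV.nu (fun x => (p : ℤ) ∣ f.eval (a * x + b)) p = rho f p := by
  haveI : Fact p.Prime := ⟨hp⟩
  haveI : NeZero p := ⟨hp.ne_zero⟩
  have ha0 : ((a : ℤ) : ZMod p) ≠ 0 := by
    rwa [Ne, ZMod.intCast_zmod_eq_zero_iff_dvd]
  set F : (ZMod p)[X] := f.map (Int.castRingHom (ZMod p)) with hF
  have main : ((Finset.range p).filter
      (fun x : ℕ => F.eval ((a : ZMod p) * (x : ZMod p) + (b : ZMod p)) = 0)).card =
      ((Finset.range p).filter (fun x : ℕ => F.eval (x : ZMod p) = 0)).card := by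
    rw [card_range_zmod p (fun y : ZMod p => F.eval ((a : ZMod p) * y + (b : ZMod p)) = 0),
      card_range_zmod p (fun y : ZMod p => F.eval y = 0)]
    refine Finset.card_bij (fun y _ => (a : ZMod p) * y + (b : ZMod p)) ?_ ?_ ?_
    · intro y hy
      rw [Finset.mem_filter] at hy ⊢
      exact ⟨Finset.mem_univ _, hy.2⟩
    · intro y _ z _ h
      have h2 : (a : ZMod p) * y = (a : ZMod p) * z := by simpa using h
      exact mul_left_cancel₀ ha0 h2
    · intro y hy
      rw [Finset.mem_filter] at hy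
      refine ⟨(a : ZMod p)⁻¹ * (y - b), ?_, ?_⟩
      · rw [Finset.mem_filter]
        refine ⟨Finset.mem_univ _, ?_⟩
        have : (a : ZMod p) * ((a : ZMod p)⁻¹ * (y - b)) + b = y := by
          field_simp; ring
        rw [this]
        exact hy.2
      · field_simp; ring
  unfold Pool.Agent.W154.PV.nu rho
  refine Eq.trans ?_ (main.trans ?_)
  · apply congrArg
    ext x
    simp only [Finset.mem_filter]
    rw [dvd_iff_zmod]
    push_cast
    rfl
  · apply congrArg
    ext x
    simp only [Finset.mem_filter]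
    rw [dvd_iff_zmod]
    push_cast
    rfl

/-- upper bound in Mertens' theorem for the roots of `f` -/
theorem mertens_upper (f : ℤ[X]) (hf : Irreducible f) (hd : 0 < f.natDegree) :
    ∃ C : ℝ, ∀ w : ℝ, 3 ≤ w → Sg (rho f) w ≤ Real.log (Real.log w) + C := by
  obtain ⟨K, iF, iN, B, hB⟩ := Pool.Agent.H474R2.GE.rho_le_homs f hf hd
  obtain ⟨C, hC⟩ := Pool.Agent.H474R2.GE.homs_upper K
  refine ⟨C + ∑ p ∈ PR B, (rho f p : ℝ) / (p : ℝ), fun w hw => ?_⟩
  have h1 := hC w hw
  have h2 : Sg (rho f) w ≤ ∑ p ∈ PR B, (rho f p : ℝ) / (p : ℝ) +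
      ∑ p ∈ PR w, (Nat.card (𝓞 K →+* ZMod p) : ℝ) / (p : ℝ) := by
    unfold Sg
    rw [← Finset.sum_filter_add_sum_filter_not (PR w) (fun p => p ≤ B)]
    apply add_le_add
    · apply Finset.sum_le_sum_of_subset_of_nonneg
      · intro p hp
        rw [Finset.mem_filter, PR, Finset.mem_filter, Finset.mem_Icc] at hp
        rw [PR, Finset.mem_filter, Finset.mem_Icc, Nat.floor_natCast]
        exact ⟨⟨hp.1.1.1, hp.2⟩, hp.1.2⟩
      · intro p _ _
        positivity
    · calc ∑ p ∈ (PR w).filter (fun p => ¬ p ≤ B), (rho f p : ℝ) / (p : ℝ)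
          ≤ ∑ p ∈ (PR w).filter (fun p => ¬ p ≤ B), (Nat.card (𝓞 K →+* ZMod p) : ℝ) / (p : ℝ) := by
            apply Finset.sum_le_sum
            intro p hp
            rw [Finset.mem_filter] at hp
            have hpp : p.Prime := (Finset.mem_filter.1 hp.1).2
            have h3 : (rho f p : ℝ) ≤ Nat.card (𝓞 K →+* ZMod p) := by
              exact_mod_cast hB p hpp (not_le.1 hp.2)
            exact div_le_div_of_nonneg_right h3 (by positivity)
        _ ≤ ∑ p ∈ PR w, (Nat.card (𝓞 K →+* ZMod p) : ℝ) / (p : ℝ) := by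
            apply Finset.sum_le_sum_of_subset_of_nonneg (Finset.filter_subset _ _)
            intro p _ _
            positivity
  linarith

end Pool.Agent.X10.PC
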