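import Pool.Agent.X10.PC.Rec0

set_option autoImplicit false

/-! # Record gaps around multiples together with composite polynomial values (helper10) -/

namespace Pool.Agent.X10.PC

open Polynomial Finset Filter
open Pool.Agent.H474R2.PG (rho PR Sg PR_prime PR_le rho_le mertens_lower)
open Pool.Agent.W154.PV (nu)
open Pool.Agent.H361R2.PA (NM card_med)

lemma mem_PR {w : ℝ} (hw : 0 ≤ w) {p : ℕ} (hp : p.Prime) (h : (p : ℝ) ≤ w) : p ∈ PR w := by
  unfold PR
  rw [mem_filter, mem_Icc]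
  exact ⟨⟨hp.pos, Nat.le_floor h⟩, hp⟩

open scoped Classical in
lemma count_nm (w K : ℝ) (N : ℤ) (S : Finset ℕ)
    (hS : ∀ p : ℕ, p.Prime → (p : ℝ) ≤ w → Pool.Agent.H361R2.PA.WW w < Real.log p → p ∈ S) :
    (((Icc (-N) N).filter (fun h : ℤ => |(h : ℝ)| ≤ K ∧ ∀ p ∈ S, ¬ (p : ℤ) ∣ h)).card : ℝ) ≤
      2 * ((NM w ⌊K⌋₊).card : ℝ) + 1 := by
  have hsub : (Icc (-N) N).filter (fun h : ℤ => |(h : ℝ)| ≤ K ∧ ∀ p ∈ S, ¬ (p : ℤ) ∣ h) ⊆
      (((NM w ⌊K⌋₊).image (fun m : ℕ => (m : ℤ))) ∪ ((NM w ⌊K⌋₊).image (fun m : ℕ => -(m : ℤ)))) ∪ {0} := by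
    intro h hh
    rw [mem_filter] at hh
    obtain ⟨-, h1, h2⟩ := hh
    rw [mem_union, mem_union, mem_image, mem_image, mem_singleton]
    by_cases h0 : h = 0
    · exact Or.inr h0
    · left
      have hN : h.natAbs ∈ NM w ⌊K⌋₊ := by
        unfold Pool.Agent.H361R2.PA.NM
        rw [mem_filter, mem_Icc]
        refine ⟨⟨by omega, ?_⟩, fun p hp hph => ?_⟩
        · apply Nat.le_floor
          rw [Nat.cast_natAbs, Int.cast_abs]
          exact h1
        · by_contra hcon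
          push Not at hcon
          exact h2 p (hS p hp hcon.1 hcon.2) (Int.natCast_dvd.2 hph)
      rcases le_total 0 h with h3 | h3
      · left; exact ⟨h.natAbs, hN, by omega⟩
      · right; exact ⟨h.natAbs, hN, by omega⟩
  have h1 := card_le_card hsub
  have e1 := card_union_le (((NM w ⌊K⌋₊).image (fun m : ℕ => (m : ℤ))) ∪
    ((NM w ⌊K⌋₊).image (fun m : ℕ => -(m : ℤ)))) {0}
  have e2 := card_union_le ((NM w ⌊K⌋₊).image (fun m : ℕ => (m : ℤ))) ((NM w ⌊K⌋₊).image (fun m : ℕ => -(m : ℤ)))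
  have e3 : ((NM w ⌊K⌋₊).image (fun m : ℕ => (m : ℤ))).card ≤ (NM w ⌊K⌋₊).card := card_image_le
  have e4 : ((NM w ⌊K⌋₊).image (fun m : ℕ => -(m : ℤ))).card ≤ (NM w ⌊K⌋₊).card := card_image_le
  rw [card_singleton] at e1
  have e5 : ((Icc (-N) N).filter (fun h : ℤ => |(h : ℝ)| ≤ K ∧ ∀ p ∈ S, ¬ (p : ℤ) ∣ h)).card ≤
      2 * (NM w ⌊K⌋₊).card + 1 := by omega
  exact_mod_cast e5

lemma one_le_ratio {α : ℤ} (h : α ≠ 0) : 1 ≤ (α.natAbs : ℝ) / (Nat.totient α.natAbs : ℝ) := by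
  have h1 : 0 < α.natAbs := Int.natAbs_pos.2 h
  have h2 : (0 : ℝ) < Nat.totient α.natAbs := by exact_mod_cast Nat.totient_pos.2 h1
  rw [le_div_iff₀ h2, one_mul]
  exact_mod_cast Nat.totient_le _

theorem recpol {ι : Type} [Finite ι] (f : ι → ℤ[X]) (hf : ∀ i, Irreducible (f i)) (hd : ∀ i, 0 < (f i).natDegree) :
    ∃ c : ℝ, 0 < c ∧ ∃ X₀ : ℕ, ∀ X : ℕ, X₀ ≤ X →
    ∀ (T : Finset ℤ) (K : ℤ → ℝ), (∀ α ∈ T, α ≠ 0 ∧ |(α : ℝ)| ≤ Real.exp (Real.log X ^ 2) ∧ Real.log X ≤ K α) →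
    ∑ α ∈ T, K α * ((α.natAbs : ℝ) / (Nat.totient α.natAbs : ℝ)) ≤ c * RR X →
    ∀ (k : ℕ) (j : Fin k → ι) (a b : Fin k → ℤ),
    (∀ s, a s ≠ 0) → (∀ s, |(a s : ℝ)| ≤ Real.exp (Real.log X ^ 2)) →
    (∀ s, |(b s : ℝ)| ≤ Real.exp (Real.log X ^ 2)) →
    ∑ s, (((a s).natAbs : ℝ) / (Nat.totient (a s).natAbs : ℝ)) ^ (f (j s)).natDegree ≤
      c * (Real.log X * (Real.log (Real.log X) * Real.log (Real.log (Real.log (Real.log X))) /
        Real.log (Real.log (Real.log X)))) →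
    ∀ M : ℤ, ∃ n : ℤ, M < n ∧ n ≤ M + X ∧
      (∀ α ∈ T, ∀ h : ℤ, |(h : ℝ)| ≤ K α → ¬ (α * n + h).natAbs.Prime) ∧
      ∀ s, ¬ ((f (j s)).eval (a s * n + b s)).natAbs.Prime := by
  classical
  obtain ⟨f', hf'⟩ : ∃ f' : Option ι → ℤ[X], f' = fun o => o.elim Polynomial.X f := ⟨_, rfl⟩
  have hN' : f' none = Polynomial.X := by rw [hf']; rfl
  have hS' : ∀ i, f' (some i) = f i := fun i => by rw [hf']; rfl
  have hirr : ∀ o, Irreducible (f' o) := by
    intro o
    cases o with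
    | none => rw [hN']; exact Polynomial.irreducible_X
    | some i => rw [hS']; exact hf i
  have hdeg : ∀ o, 0 < (f' o).natDegree := by
    intro o
    cases o with
    | none => rw [hN', natDegree_X]; exact one_pos
    | some i => rw [hS']; exact hd i
  obtain ⟨c₀, hc₀, X₁, hass⟩ := assemble f' hirr hdeg
  obtain ⟨B₀, hB₀⟩ := unifN (fun i x => ∀ p : ℕ, p.Prime → x < p → rho (f' i) p ≤ (f' i).natDegree)
    (fun i x y h1 h2 p hp hy => h2 p hp (by omega)) (fun i => by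
      obtain ⟨B, hB⟩ := rho_le (f' i) (hirr i).ne_zero
      exact ⟨B, fun p hp hlt => hB p hp hlt⟩)
  obtain ⟨C, hC0, hC⟩ := unif (fun i x => ∀ w : ℝ, 3 ≤ w → Real.log (Real.log w) - x ≤ Sg (rho (f' i)) w)
    (fun i x y h1 h2 w hw => by linarith [h2 w hw]) (fun i => mertens_lower (f' i) (hirr i) (hdeg i))
  obtain ⟨y₀, hmed⟩ := card_med
  obtain ⟨E, hE⟩ : ∃ E : ℝ, E = Real.exp (C + B₀) := ⟨_, rfl⟩
  have hE1 : 1 ≤ E := by rw [hE]; exact Real.one_le_exp (by positivity)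
  obtain ⟨c, hcdef⟩ : ∃ c : ℝ, c = min c₀ 1 / (40000 * E) := ⟨_, rfl⟩
  have hc : 0 < c := by rw [hcdef]; positivity
  have hc1 : c ≤ 1 / 40000 := by
    rw [hcdef, div_le_div_iff₀ (by positivity) (by norm_num)]
    have : min c₀ 1 ≤ 1 := min_le_right _ _
    nlinarith
  have hcE : 40000 * (E * c) ≤ c₀ := by
    have : 40000 * (E * c) = min c₀ 1 := by rw [hcdef]; field_simp
    rw [this]; exact min_le_left _ _
  refine ⟨c, hc, ?_⟩
  have t1 : Tendsto (fun n : ℕ => Real.log (n : ℝ)) atTop atTop := Real.tendsto_log_atTop.comp tendsto_natCast_atTop_atTop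
  have t2 := Real.tendsto_log_atTop.comp t1
  have t3 := Real.tendsto_log_atTop.comp t2
  have t4 := Real.tendsto_log_atTop.comp t3
  obtain ⟨X₂, hX₂⟩ := eventually_atTop.1 ((t1.eventually_ge_atTop (100 * |y₀| + 100)).and
    ((t2.eventually_ge_atTop 1000).and ((t3.eventually_ge_atTop 100).and (t4.eventually_ge_atTop 5))))
  refine ⟨max X₁ X₂, fun X hX T K hT hTK k j a b ha0 haX hbX hsum M => ?_⟩
  obtain ⟨g1, g2, g3, g4⟩ := hX₂ X (by omega)
  simp only [Function.comp] at g2 g3 g4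
  obtain ⟨L, hL⟩ : ∃ L, L = Real.log (X : ℝ) := ⟨_, rfl⟩
  have hRR : RR X = L * Real.log L ^ 2 * Real.log (Real.log (Real.log L)) / Real.log (Real.log L) ^ 2 := by
    unfold RR; rw [hL]
  rw [hRR] at hTK
  rw [← hL] at g1 g2 g3 g4 hsum
  simp only [← hL] at hT haX hbX
  obtain ⟨l, hl⟩ : ∃ l, l = Real.log L := ⟨_, rfl⟩
  rw [← hl] at g2 g3 g4 hsum hTK
  obtain ⟨l₃, hl₃⟩ : ∃ l₃, l₃ = Real.log l := ⟨_, rfl⟩
  rw [← hl₃] at g3 g4 hsum hTK
  obtain ⟨l₄, hl₄⟩ : ∃ l₄, l₄ = Real.log l₃ := ⟨_, rfl⟩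
  rw [← hl₄] at g4 hsum hTK
  have hy0 : 0 ≤ |y₀| := abs_nonneg _
  have hL0 : 0 < L := by linarith
  obtain ⟨w, hw⟩ : ∃ w : ℝ, w = L / 100 := ⟨_, rfl⟩
  obtain ⟨n1, n2, n3, n4, n5, n6, n7, n8, n9, n10⟩ := num w l l₃ l₄ L hl hl₃ hl₄ g4 g3 g2 hL0 hw
  have hl0 : 0 < l := by linarith
  have hl30 : 0 < l₃ := by linarith
  have hl40 : 0 < l₄ := by linarith
  obtain ⟨V, hV⟩ : ∃ V : ℝ, V = Pool.Agent.H361R2.PA.WW w := ⟨_, rfl⟩
  rw [← hV] at n7 n8 n9
  have hLexp : L = Real.exp l := by rw [hl, Real.exp_log hL0]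
  have hLl : 100 * l ^ 2 ≤ L := by
    have h := Real.pow_div_factorial_le_exp l hl0.le 3
    have h5 : (Nat.factorial 3 : ℝ) = 6 := by norm_num [Nat.factorial]
    rw [h5, ← hLexp] at h
    have h6 : l ^ 3 / 6 = l * l ^ 2 / 6 := by ring
    rw [h6] at h
    have h7 : 1000 * l ^ 2 ≤ l * l ^ 2 := mul_le_mul_of_nonneg_right g2 (by positivity)
    linarith
  have hw0 : 0 ≤ w := by rw [hw]; positivity
  have hl4l3 : l₄ / l₃ ≤ 1 := by rw [div_le_one hl30]; exact n2
  -- record length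
  have hRRle : L * l ^ 2 * l₄ / l₃ ^ 2 ≤ L * l ^ 2 := by
    rw [div_le_iff₀ (by positivity)]
    have : l₄ ≤ l₃ ^ 2 := by nlinarith
    exact mul_le_mul_of_nonneg_left this (by positivity)
  have hPle : L * (l * l₄ / l₃) ≤ L * l := by
    apply mul_le_mul_of_nonneg_left _ hL0.le
    rw [div_le_iff₀ hl30]
    exact mul_le_mul_of_nonneg_left n2 hl0.le
  have hKpos : ∀ α ∈ T, 0 ≤ K α * ((α.natAbs : ℝ) / (Nat.totient α.natAbs : ℝ)) := fun α hα => by
    have h1 := one_le_ratio (hT α hα).1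
    have h2 := (hT α hα).2.2
    exact mul_nonneg (by linarith) (by linarith)
  have hKle : ∀ α ∈ T, K α ≤ c * (L * l ^ 2 * l₄ / l₃ ^ 2) := fun α hα => by
    have h1 := single_le_sum hKpos hα
    have h2 := one_le_ratio (hT α hα).1
    have h3 := (hT α hα).2.2
    have h4 : K α * 1 ≤ K α * ((α.natAbs : ℝ) / (Nat.totient α.natAbs : ℝ)) :=
      mul_le_mul_of_nonneg_left h2 (by linarith)
    linarith
  have hKle2 : ∀ α ∈ T, K α ≤ L * l ^ 2 := fun α hα => by
    refine (hKle α hα).trans ?_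
    have h1 : 0 ≤ L * l ^ 2 := by positivity
    have h2 : c * (L * l ^ 2 * l₄ / l₃ ^ 2) ≤ c * (L * l ^ 2) := mul_le_mul_of_nonneg_left hRRle hc.le
    nlinarith
  obtain ⟨N, hN⟩ : ∃ N : ℤ, N = ⌊L * l ^ 2⌋ := ⟨_, rfl⟩
  obtain ⟨Rs, hRs⟩ : ∃ Rs : Finset (ℤ × ℤ), Rs = (T ×ˢ Icc (-N) N).filter (fun x => |(x.2 : ℝ)| ≤ K x.1) := ⟨_, rfl⟩
  have hmemN : ∀ α ∈ T, ∀ h : ℤ, |(h : ℝ)| ≤ K α → (α, h) ∈ Rs := by
    intro α hα h hh
    rw [hRs, mem_filter, mem_product, mem_Icc]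
    refine ⟨⟨hα, ?_⟩, hh⟩
    have h1 := hh.trans (hKle2 α hα)
    rw [abs_le] at h1
    constructor
    · have : -h ≤ ⌊L * l ^ 2⌋ := Int.le_floor.2 (by push_cast; linarith [h1.1])
      rw [hN]; linarith
    · rw [hN]; exact Int.le_floor.2 h1.2
  have hRsT : ∀ x ∈ Rs, x.1 ∈ T ∧ |(x.2 : ℝ)| ≤ K x.1 := by
    intro x hx
    rw [hRs, mem_filter, mem_product] at hx
    exact ⟨hx.1.1, hx.2⟩
  -- a sum over Rs
  have hsumRs : ∀ (g : ℤ → ℝ) (P : ℤ → Prop), (∀ α ∈ T, 0 ≤ g α) → ∑ x ∈ Rs, (if P x.2 then g x.1 else 0) =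
      ∑ α ∈ T, g α * (((Icc (-N) N).filter (fun h : ℤ => |(h : ℝ)| ≤ K α ∧ P h)).card : ℝ) := by
    intro g P _
    rw [hRs, sum_filter, sum_product]
    refine sum_congr rfl fun α _ => ?_
    rw [card_filter]
    push_cast
    rw [mul_sum]
    refine sum_congr rfl fun h _ => ?_
    by_cases h1 : |(h : ℝ)| ≤ K α <;> by_cases h2 : P h <;> simp [h1, h2]
  have hcardRs : (Rs.card : ℝ) ≤ L * l ^ 2 := by
    have h1 := hsumRs (fun _ => 1) (fun _ => True) (fun _ _ => zero_le_one)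
    simp only [if_true, sum_const, nsmul_eq_mul, mul_one, one_mul, and_true] at h1
    rw [h1]
    have h2 : ∀ α ∈ T, (((Icc (-N) N).filter (fun h : ℤ => |(h : ℝ)| ≤ K α)).card : ℝ) ≤ 3 * K α := by
      intro α hα
      have h3 : (Icc (-N) N).filter (fun h : ℤ => |(h : ℝ)| ≤ K α) ⊆ Icc (-⌊K α⌋) ⌊K α⌋ := by
        intro h hh
        rw [mem_filter, abs_le] at hh
        rw [mem_Icc]
        constructor
        · have : -h ≤ ⌊K α⌋ := Int.le_floor.2 (by push_cast; linarith [hh.2.1])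
          linarith
        · exact Int.le_floor.2 hh.2.2
      have h4 := card_le_card h3
      rw [Int.card_Icc] at h4
      have hKα : L ≤ K α := (hT α hα).2.2
      have h5 : 0 ≤ ⌊K α⌋ := Int.floor_nonneg.2 (by linarith)
      have h6 : ((⌊K α⌋ + 1 - -⌊K α⌋).toNat : ℤ) = 2 * ⌊K α⌋ + 1 := by
        rw [Int.toNat_of_nonneg (by linarith)]; ring
      have h7 : (((⌊K α⌋ + 1 - -⌊K α⌋).toNat : ℕ) : ℝ) = 2 * (⌊K α⌋ : ℝ) + 1 := by
        have := congrArg (fun z : ℤ => (z : ℝ)) h6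
        push_cast at this
        exact this
      have h8 : (((Icc (-N) N).filter (fun h : ℤ => |(h : ℝ)| ≤ K α)).card : ℝ) ≤
          (((⌊K α⌋ + 1 - -⌊K α⌋).toNat : ℕ) : ℝ) := by exact_mod_cast h4
      rw [h7] at h8
      have h9 : (⌊K α⌋ : ℝ) ≤ K α := Int.floor_le _
      linarith
    refine (sum_le_sum h2).trans ?_
    rw [← mul_sum]
    have h3 : ∑ α ∈ T, K α ≤ ∑ α ∈ T, K α * ((α.natAbs : ℝ) / (Nat.totient α.natAbs : ℝ)) := by
      refine sum_le_sum fun α hα => ?_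
      have h4 := (hT α hα).2.2
      exact le_mul_of_one_le_right (by linarith) (one_le_ratio (hT α hα).1)
    have h4 : 3 * (c * (L * l ^ 2 * l₄ / l₃ ^ 2)) ≤ L * l ^ 2 := by
      have h5 : 0 ≤ L * l ^ 2 := by positivity
      have h6 : c * (L * l ^ 2 * l₄ / l₃ ^ 2) ≤ c * (L * l ^ 2) := mul_le_mul_of_nonneg_left hRRle hc.le
      nlinarith
    linarith
  have hk : (k : ℝ) ≤ L * l := by
    have h1 : (k : ℝ) ≤ ∑ s : Fin k, (((a s).natAbs : ℝ) / (Nat.totient (a s).natAbs : ℝ)) ^ (f (j s)).natDegree := by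
      calc (k : ℝ) = ∑ _s : Fin k, (1 : ℝ) := by simp
        _ ≤ _ := sum_le_sum fun s _ => one_le_pow₀ (one_le_ratio (ha0 s))
    have h2 : c * (L * (l * l₄ / l₃)) ≤ 1 * (L * l) :=
      mul_le_mul (by linarith) hPle (by positivity) zero_le_one
    linarith
  -- the forms
  let σ : Type := {x : ℤ × ℤ // x ∈ Rs} ⊕ Fin k
  let jσ : σ → Option ι := Sum.elim (fun _ => none) (fun s => some (j s))
  let aσ : σ → ℤ := Sum.elim (fun x => x.1.1) a
  let bσ : σ → ℤ := Sum.elim (fun x => x.1.2) b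
  let m : ℕ := Fintype.card σ
  let e : Fin m ≃ σ := (Fintype.equivFin σ).symm
  have hm : (m : ℝ) ≤ L ^ 2 := by
    have h1 : m = Rs.card + k := by
      show Fintype.card σ = _
      rw [Fintype.card_sum, Fintype.card_coe, Fintype.card_fin]
    rw [h1]
    push_cast
    have h2 : L * l ^ 2 + L * l ≤ L ^ 2 := by
      have h3 : l ≤ l ^ 2 := by nlinarith
      have h4 : l ^ 2 + l ≤ L := by nlinarith
      calc L * l ^ 2 + L * l = L * (l ^ 2 + l) := by ring
        _ ≤ L * L := mul_le_mul_of_nonneg_left h4 hL0.le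
        _ = L ^ 2 := by ring
    linarith
  have hL2exp : L ^ 2 ≤ Real.exp (L ^ 2) := by
    have := Real.add_one_le_exp (L ^ 2)
    linarith
  have haσ0 : ∀ t : σ, aσ t ≠ 0 := by
    rintro (x | s)
    · exact (hT _ (hRsT x.1 x.2).1).1
    · exact ha0 s
  have haσX : ∀ t : σ, |(aσ t : ℝ)| ≤ Real.exp (L ^ 2) := by
    rintro (x | s)
    · exact (hT _ (hRsT x.1 x.2).1).2.1
    · exact haX s
  have hbσX : ∀ t : σ, |(bσ t : ℝ)| ≤ Real.exp (L ^ 2) := by
    rintro (x | s)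
    · refine (hRsT x.1 x.2).2.trans ((hKle2 _ (hRsT x.1 x.2).1).trans (le_trans ?_ hL2exp))
      have : l ^ 2 ≤ L := by nlinarith
      calc L * l ^ 2 ≤ L * L := mul_le_mul_of_nonneg_left this hL0.le
        _ = L ^ 2 := by ring
    · exact hbX s
  -- the class
  obtain ⟨v, hv⟩ : ∃ v : ℝ, v = Real.exp V := ⟨_, rfl⟩
  have hlogv : Real.log v = V := by rw [hv, Real.log_exp]
  have hw1 : 0 < w := by rw [hw]; positivity
  have hvw : v ≤ w := by
    rw [hv, ← Real.exp_log hw1]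
    exact Real.exp_le_exp.2 n8
  have hv3 : 3 ≤ v := by
    rw [hv]
    have := Real.add_one_le_exp V
    linarith
  have hPRsub : PR v ⊆ PR w := by
    intro p hp
    exact mem_PR hw0 (PR_prime hp) ((PR_le (by linarith) hp).trans hvw)
  obtain ⟨n₀, hn₀⟩ := greedy_med (univ : Finset (Fin m))
    (fun p s x => (p : ℤ) ∣ (f' (jσ (e s))).eval (aσ (e s) * x + bσ (e s))) (PR v) (PR w \ PR v)
    (fun p hp => PR_prime hp) (fun p hp => PR_prime (Finset.mem_sdiff.1 hp).1) disjoint_sdiff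
    (fun p s _ x y hxy => by
      have h1 := Polynomial.sub_dvd_eval_sub (aσ (e s) * x + bσ (e s)) (aσ (e s) * y + bσ (e s)) (f' (jσ (e s)))
      have h2 : aσ (e s) * x + bσ (e s) - (aσ (e s) * y + bσ (e s)) = aσ (e s) * (x - y) := by ring
      rw [h2] at h1
      exact dvd_iff_dvd_of_dvd_sub ((hxy.mul_left (aσ (e s))).trans h1))
  rw [union_sdiff_of_subset hPRsub] at hn₀
  -- the bound for the number of the survivors
  obtain ⟨den, hden⟩ : ∃ den : σ → ℝ, den = fun t =>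
      ∏ p ∈ PR v, (1 - (nu (fun x => (p : ℤ) ∣ (f' (jσ t)).eval (aσ t * x + bσ t)) p : ℝ) / (p : ℝ)) := ⟨_, rfl⟩
  have hdle : ∀ t : σ, den t ≤ E * ((((aσ t).natAbs : ℝ) / (Nat.totient (aσ t).natAbs : ℝ)) ^ (f' (jσ t)).natDegree) / V := by
    intro t
    rw [hden, hE, ← hlogv]
    exact density_le (f' (jσ t)) (f' (jσ t)).natDegree B₀ C (hC (jσ t)) (hB₀ (jσ t)) (haσ0 t) (bσ t) v hv3
  have hsurv : (((univ : Finset (Fin m)).filter (fun s => ∀ p ∈ PR w,
      ¬ (p : ℤ) ∣ (f' (jσ (e s))).eval (aσ (e s) * n₀ + bσ (e s)))).card : ℝ) ≤ c₀ * L := by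
    refine le_trans (le_of_eq ?_) (hn₀.trans ?_)
    · congr!
    have hV0 : 0 < V := by linarith
    have h1 : ∑ s ∈ (univ : Finset (Fin m)).filter (fun s => ∀ p ∈ PR w \ PR v,
          ¬ (p : ℤ) ∣ (f' (jσ (e s))).eval (aσ (e s) * 0 + bσ (e s))),
          ∏ p ∈ PR v, (1 - (nu (fun x => (p : ℤ) ∣ (f' (jσ (e s))).eval (aσ (e s) * x + bσ (e s))) p : ℝ) / (p : ℝ)) =
        ∑ t : σ, (if ∀ p ∈ PR w \ PR v, ¬ (p : ℤ) ∣ (f' (jσ t)).eval (aσ t * 0 + bσ t) then den t else 0) := by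
      rw [sum_filter, ← Equiv.sum_comp e]
      rw [hden]
    have h2 : ∑ t : σ, (if ∀ p ∈ PR w \ PR v, ¬ (p : ℤ) ∣ (f' (jσ t)).eval (aσ t * 0 + bσ t) then den t else 0) ≤
        ∑ x ∈ Rs, (if ∀ p ∈ PR w \ PR v, ¬ (p : ℤ) ∣ x.2 then
          E * ((x.1.natAbs : ℝ) / (Nat.totient x.1.natAbs : ℝ)) / V else 0) +
        ∑ s : Fin k, E * ((((a s).natAbs : ℝ) / (Nat.totient (a s).natAbs : ℝ)) ^ (f (j s)).natDegree) / V := by
      rw [Fintype.sum_sum_type]
      apply add_le_add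
      · rw [← Finset.sum_coe_sort Rs]
        refine sum_le_sum fun x _ => ?_
        have e1 : (f' (jσ (Sum.inl x))).eval (aσ (Sum.inl x) * 0 + bσ (Sum.inl x)) = x.1.2 := by
          show (f' none).eval (x.1.1 * 0 + x.1.2) = _
          rw [hN', eval_X, mul_zero, zero_add]
        rw [e1]
        split_ifs with h
        · refine (hdle (Sum.inl x)).trans (le_of_eq ?_)
          show E * (((x.1.1.natAbs : ℝ) / (Nat.totient x.1.1.natAbs : ℝ)) ^ (f' none).natDegree) / V = _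
          rw [hN', natDegree_X, pow_one]
        · exact le_rfl
      · refine sum_le_sum fun s _ => ?_
        have h3 : 0 ≤ E * ((((a s).natAbs : ℝ) / (Nat.totient (a s).natAbs : ℝ)) ^ (f (j s)).natDegree) / V := by
          positivity
        split_ifs with h
        · refine (hdle (Sum.inr s)).trans (le_of_eq ?_)
          show E * ((((a s).natAbs : ℝ) / (Nat.totient (a s).natAbs : ℝ)) ^ (f' (some (j s))).natDegree) / V = _
          rw [hS']
        · exact h3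
    have h3 : ∑ s : Fin k, E * ((((a s).natAbs : ℝ) / (Nat.totient (a s).natAbs : ℝ)) ^ (f (j s)).natDegree) / V ≤
        40 * (E * c) * L := by
      rw [← sum_div, ← mul_sum, div_le_iff₀ hV0]
      calc E * ∑ s : Fin k, (((a s).natAbs : ℝ) / (Nat.totient (a s).natAbs : ℝ)) ^ (f (j s)).natDegree ≤
            E * (c * (L * (l * l₄ / l₃))) := mul_le_mul_of_nonneg_left hsum (by linarith)
        _ = 40 * (E * c) * L * (l * l₄ / (40 * l₃)) := by field_simp
        _ ≤ 40 * (E * c) * L * V := mul_le_mul_of_nonneg_left n7 (by positivity)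
    have h4 : ∑ x ∈ Rs, (if ∀ p ∈ PR w \ PR v, ¬ (p : ℤ) ∣ x.2 then
          E * ((x.1.natAbs : ℝ) / (Nat.totient x.1.natAbs : ℝ)) / V else 0) ≤ 9640 * (E * c) * L := by
      have h5 := hsumRs (fun α => E * ((α.natAbs : ℝ) / (Nat.totient α.natAbs : ℝ)) / V)
        (fun h => ∀ p ∈ PR w \ PR v, ¬ (p : ℤ) ∣ h) (fun α _ => by positivity)
      refine (le_of_eq (Eq.trans (by congr!) h5)).trans ?_
      have h6 : ∀ α ∈ T, (((Icc (-N) N).filter (fun h : ℤ => |(h : ℝ)| ≤ K α ∧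
          ∀ p ∈ PR w \ PR v, ¬ (p : ℤ) ∣ h)).card : ℝ) ≤ 241 * (K α * l₃ / l) := by
        intro α hα
        have hKα : L ≤ K α := (hT α hα).2.2
        have h7 := count_nm w (K α) N (PR w \ PR v) (fun p hp hpw hpV => by
          rw [Finset.mem_sdiff]
          refine ⟨mem_PR hw0 hp hpw, fun h8 => ?_⟩
          have h9 := PR_le (by linarith) h8
          have h10 : Real.log p ≤ V := by
            rw [← hlogv]
            exact Real.log_le_log (by exact_mod_cast hp.pos) h9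
          rw [← hV] at hpV
          linarith)
        have h8 : ((NM w ⌊K α⌋₊).card : ℝ) ≤ 120 * (K α * l₃ / l) := by
          have hfl : (⌊K α⌋₊ : ℝ) ≤ K α := Nat.floor_le (by linarith)
          have hfl2 : K α < ⌊K α⌋₊ + 1 := Nat.lt_floor_add_one _
          have h9 := hmed w (by
            have := le_abs_self y₀
            rw [hw]
            linarith) ⌊K α⌋₊ (by
            rw [hw]
            linarith) (by
            refine hfl.trans ((hKle2 α hα).trans ?_)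
            have h10 : (l / 2) ^ 4 ≤ (Real.log w) ^ 4 := pow_le_pow_left₀ (by positivity) n3 4
            have h11 : 1600 * l ^ 2 ≤ l ^ 4 := by
              have : l ^ 4 = l ^ 2 * l ^ 2 := by ring
              rw [this]
              apply mul_le_mul_of_nonneg_right _ (by positivity)
              nlinarith
            calc L * l ^ 2 ≤ L * (l ^ 4 / 1600) := mul_le_mul_of_nonneg_left (by linarith) hL0.le
              _ = w * (l / 2) ^ 4 := by rw [hw]; ring
              _ ≤ _ := mul_le_mul_of_nonneg_left h10 hw0)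
          refine h9.trans ?_
          rw [div_le_iff₀ (by linarith)]
          calc 60 * (⌊K α⌋₊ : ℝ) * Real.log (Real.log w) ≤ 60 * K α * l₃ := by
                apply mul_le_mul _ n5 n6.le (by linarith)
                linarith
            _ = 120 * (K α * l₃ / l) * (l / 2) := by field_simp; ring
            _ ≤ _ := by
                apply mul_le_mul_of_nonneg_left n3
                have : 0 ≤ K α := by linarith
                positivity
        have h9 : 1 ≤ K α * l₃ / l := by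
          rw [le_div_iff₀ hl0]
          have : l ≤ L := by nlinarith
          nlinarith
        linarith
      have h7 : ∑ α ∈ T, E * ((α.natAbs : ℝ) / (Nat.totient α.natAbs : ℝ)) / V *
          (((Icc (-N) N).filter (fun h : ℤ => |(h : ℝ)| ≤ K α ∧
          ∀ p ∈ PR w \ PR v, ¬ (p : ℤ) ∣ h)).card : ℝ) ≤
          ∑ α ∈ T, (241 * E * l₃ / (l * V)) * (K α * ((α.natAbs : ℝ) / (Nat.totient α.natAbs : ℝ))) := by
        refine sum_le_sum fun α hα => ?_
        refine (mul_le_mul_of_nonneg_left (h6 α hα) (by positivity)).trans (le_of_eq ?_)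
        field_simp
      refine le_trans (le_of_eq (by congr!)) (h7.trans ?_)
      rw [← mul_sum]
      refine (mul_le_mul_of_nonneg_left hTK (by positivity)).trans ?_
      rw [div_mul_eq_mul_div, div_le_iff₀ (by positivity)]
      calc 241 * E * l₃ * (c * (L * l ^ 2 * l₄ / l₃ ^ 2)) = 9640 * (E * c) * L * (l * (l * l₄ / (40 * l₃))) := by
            field_simp; ring
        _ ≤ 9640 * (E * c) * L * (l * V) := by
            apply mul_le_mul_of_nonneg_left _ (by positivity)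
            exact mul_le_mul_of_nonneg_left n7 hl0.le
    refine (le_of_eq (Eq.trans (by congr!) h1)).trans (h2.trans ((add_le_add h4 h3).trans ?_))
    have h10 : 0 ≤ E * c := by positivity
    calc 9640 * (E * c) * L + 40 * (E * c) * L = 9680 * (E * c) * L := by ring
      _ ≤ c₀ * L := mul_le_mul_of_nonneg_right (by linarith) hL0.le
  obtain ⟨n, hn1, hn2, hn3⟩ := hass X (by omega) m (fun s => jσ (e s)) (fun s => aσ (e s)) (fun s => bσ (e s))
    (fun s => haσ0 _) (fun s => by rw [← hL]; exact haσX _) (fun s => by rw [← hL]; exact hbσX _)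
    (by rw [← hL]; exact hm) n₀ (by
      rw [← hL, ← hw]
      exact hsurv) M
  refine ⟨n, hn1, hn2, fun α hα h hh => ?_, fun s => ?_⟩
  · have h1 := hn3 (e.symm (Sum.inl ⟨(α, h), hmemN α hα h hh⟩))
    simp only [Equiv.apply_symm_apply] at h1
    have h2 : (f' (jσ (Sum.inl ⟨(α, h), hmemN α hα h hh⟩))).eval
        (aσ (Sum.inl ⟨(α, h), hmemN α hα h hh⟩) * n + bσ (Sum.inl ⟨(α, h), hmemN α hα h hh⟩)) = α * n + h := by
      show (f' none).eval (α * n + h) = _
      rw [hN', eval_X]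
    rwa [h2] at h1
  · have h1 := hn3 (e.symm (Sum.inr s))
    simp only [Equiv.apply_symm_apply] at h1
    have h2 : (f' (jσ (Sum.inr s))).eval (aσ (Sum.inr s) * n + bσ (Sum.inr s)) = (f (j s)).eval (a s * n + b s) := by
      show (f' (some (j s))).eval (a s * n + b s) = _
      rw [hS']
    rwa [h2] at h1

end Pool.Agent.X10.PC
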