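import Pool.Agent.X10.PC.Asm
import Pool.Agent.H361R2.PA.Med

set_option autoImplicit false

/-! # Tools for record gaps around multiples together with composite polynomial values (helper10) -/

namespace Pool.Agent.X10.PC

open Polynomial Finset Filter
open Pool.Agent.H474R2.PG (rho PR Sg PR_prime PR_le)
open Pool.Agent.W154.PV (nu)

open scoped Classical in
/-- greedy choice at the primes of `S`, class `0` at the primes of `S'` -/
lemma greedy_med {ι : Type} (I : Finset ι) (Q : ℕ → ι → ℤ → Prop) (S S' : Finset ℕ) (hS : ∀ p ∈ S, p.Prime)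
    (hS' : ∀ p ∈ S', p.Prime) (hdis : Disjoint S S')
    (hQ : ∀ p : ℕ, ∀ i ∈ I, ∀ x y : ℤ, (p : ℤ) ∣ x - y → (Q p i x ↔ Q p i y)) :
    ∃ n₀ : ℤ, ((I.filter (fun i => ∀ p ∈ S ∪ S', ¬ Q p i n₀)).card : ℝ) ≤
      ∑ i ∈ I.filter (fun i => ∀ p ∈ S', ¬ Q p i 0), ∏ p ∈ S, (1 - (nu (Q p i) p : ℝ) / (p : ℝ)) := by
  obtain ⟨r, hr⟩ := choose_all_gen (I.filter (fun i => ∀ p ∈ S', ¬ Q p i 0)) Q S (fun p hp => (hS p hp).pos)
    (fun _ => 1) (fun _ => zero_le_one)
  obtain ⟨n₀, hn₀⟩ := Pool.Agent.H256R2.SC.crt_int (S ∪ S') (fun p : ℕ => (p : ℤ)) (fun p hp q hq hpq => by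
    have h1 : ∀ p ∈ S ∪ S', p.Prime := fun p hp => by
      rcases mem_union.1 hp with h | h
      · exact hS p h
      · exact hS' p h
    rw [Nat.isCoprime_iff_coprime]
    exact (Nat.coprime_primes (h1 p hp) (h1 q hq)).2 hpq) (fun p => if p ∈ S then (r p : ℤ) else 0)
  refine ⟨n₀, ?_⟩
  have h2 : (I.filter (fun i => ∀ p ∈ S ∪ S', ¬ Q p i n₀)) ⊆
      (I.filter (fun i => ∀ p ∈ S', ¬ Q p i 0)).filter (fun i => ∀ p ∈ S, ¬ Q p i (r p : ℤ)) := by
    intro i hi
    rw [mem_filter] at hi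
    rw [mem_filter, mem_filter]
    refine ⟨⟨hi.1, fun p hp h => ?_⟩, fun p hp h => ?_⟩
    · have h3 := hn₀ p (mem_union_right _ hp)
      rw [if_neg (fun h4 => (disjoint_left.1 hdis h4 hp))] at h3
      exact hi.2 p (mem_union_right _ hp) ((hQ p i hi.1 _ _ h3).2 h)
    · have h3 := hn₀ p (mem_union_left _ hp)
      rw [if_pos hp] at h3
      exact hi.2 p (mem_union_left _ hp) ((hQ p i hi.1 _ _ h3).2 h)
  have h3 : ((I.filter (fun i => ∀ p ∈ S ∪ S', ¬ Q p i n₀)).card : ℝ) ≤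
      ∑ i ∈ I.filter (fun i => ∀ p ∈ S', ¬ Q p i 0), (if ∀ p ∈ S, ¬ Q p i (r p : ℤ) then (1 : ℝ) else 0) := by
    rw [sum_boole]
    exact_mod_cast card_le_card h2
  refine h3.trans (hr.trans (le_of_eq ?_))
  exact sum_congr rfl fun i _ => one_mul _

/-- the record scale -/
noncomputable def RR (x : ℝ) : ℝ :=
  Real.log x * (Real.log (Real.log x)) ^ 2 * Real.log (Real.log (Real.log (Real.log x))) /
    (Real.log (Real.log (Real.log x))) ^ 2

/-- numerical facts -/
lemma num (w l l₃ l₄ L : ℝ) (hl : l = Real.log L) (hl₃ : l₃ = Real.log l) (hl₄ : l₄ = Real.log l₃) (h4 : 5 ≤ l₄)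
    (h3 : 100 ≤ l₃) (h2 : 1000 ≤ l) (hL : 0 < L) (hw : w = L / 100) :
    l₃ ≤ l ∧ l₄ ≤ l₃ ∧ l / 2 ≤ Real.log w ∧ Real.log w ≤ l ∧
      Real.log (Real.log w) ≤ l₃ ∧ 0 < Real.log (Real.log w) ∧
      l * l₄ / (40 * l₃) ≤ Pool.Agent.H361R2.PA.WW w ∧ Pool.Agent.H361R2.PA.WW w ≤ Real.log w ∧
      2 ≤ Pool.Agent.H361R2.PA.WW w ∧ 1 ≤ l * l₄ / l₃ := by
  have hl0 : 0 < l := by linarith
  have hl30 : 0 < l₃ := by linarith
  have hl40 : 0 < l₄ := by linarith
  have a1 : l₃ ≤ l := by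
    rw [hl₃]
    exact (Real.log_le_sub_one_of_pos hl0).trans (by linarith)
  have a2 : l₄ ≤ l₃ := by
    rw [hl₄]
    exact (Real.log_le_sub_one_of_pos hl30).trans (by linarith)
  have h100 : Real.log 100 ≤ 5 := by
    have h2 : Real.log 100 ≤ Real.log (Real.exp 5) := by
      apply Real.log_le_log (by norm_num)
      have h3 : (2.7 : ℝ) ≤ Real.exp 1 := by linarith [Real.exp_one_gt_d9]
      calc (100 : ℝ) ≤ 2.7 ^ 5 := by norm_num
        _ ≤ Real.exp 1 ^ 5 := by gcongr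
        _ = Real.exp 5 := by rw [← Real.exp_nat_mul]; norm_num
    rwa [Real.log_exp] at h2
  have h100' : 0 ≤ Real.log 100 := Real.log_nonneg (by norm_num)
  have hlw : Real.log w = l - Real.log 100 := by
    rw [hw, Real.log_div hL.ne' (by norm_num), ← hl]
  have a3 : l / 2 ≤ Real.log w := by rw [hlw]; linarith
  have a4 : Real.log w ≤ l := by rw [hlw]; linarith
  have a5 : Real.log (Real.log w) ≤ l₃ := by
    rw [hl₃]
    exact Real.log_le_log (by linarith) a4
  have hlog2 : Real.log 2 ≤ 1 := by linarith [Real.log_two_lt_d9]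
  have a6 : l₃ / 2 ≤ Real.log (Real.log w) := by
    have h := Real.log_le_log (by positivity) a3
    rw [Real.log_div hl0.ne' (by norm_num), ← hl₃] at h
    linarith
  have a7 : 0 < Real.log (Real.log w) := by linarith
  have a8 : l₄ / 2 ≤ Real.log (Real.log (Real.log w)) := by
    have h := Real.log_le_log (by positivity) a6
    rw [Real.log_div hl30.ne' (by norm_num), ← hl₄] at h
    linarith
  have a9 : Real.log (Real.log (Real.log w)) ≤ Real.log (Real.log w) :=
    (Real.log_le_sub_one_of_pos a7).trans (by linarith)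
  have b1 : l * l₄ / (40 * l₃) ≤ Pool.Agent.H361R2.PA.WW w := by
    unfold Pool.Agent.H361R2.PA.WW
    rw [div_le_div_iff₀ (by positivity) (by positivity)]
    have c1 : (l / 2) * (l₄ / 2) ≤ Real.log w * Real.log (Real.log (Real.log w)) :=
      mul_le_mul a3 a8 (by linarith) (by linarith)
    calc l * l₄ * (10 * Real.log (Real.log w)) = 40 * ((l / 2) * (l₄ / 2)) * Real.log (Real.log w) := by ring
      _ ≤ 40 * (Real.log w * Real.log (Real.log (Real.log w))) * l₃ := by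
          apply mul_le_mul (by linarith) a5 a7.le
          have : 0 ≤ Real.log w * Real.log (Real.log (Real.log w)) := le_trans (by positivity) c1
          linarith
      _ = _ := by ring
  have b2 : Pool.Agent.H361R2.PA.WW w ≤ Real.log w := by
    unfold Pool.Agent.H361R2.PA.WW
    rw [div_le_iff₀ (by positivity)]
    have c2 : 0 ≤ Real.log w := by linarith
    nlinarith
  have b4 : 1 ≤ l * l₄ / l₃ := by
    rw [le_div_iff₀ hl30]
    nlinarith
  have b3 : 2 ≤ Pool.Agent.H361R2.PA.WW w := by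
    refine le_trans ?_ b1
    rw [le_div_iff₀ (by positivity)]
    -- l ≥ exp l₃ ≥ 100 l₃
    have c3 : l = Real.exp l₃ := by rw [hl₃, Real.exp_log hl0]
    have c4 : l₃ ^ 2 / 2 ≤ l := by
      rw [c3]
      have := Real.quadratic_le_exp_of_nonneg hl30.le
      linarith
    nlinarith
  exact ⟨a1, a2, a3, a4, a5, a7, b1, b2, b3, b4⟩

end Pool.Agent.X10.PC
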