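import Mathlib

set_option autoImplicit false

/-! # Resultants of `f (a x + b)` and `g (a' x + b')` (helper10) -/

namespace Pool.Agent.X10.PC

open Polynomial Finset

/-- `f (a x + b)` -/
noncomputable def sub (f : ℤ[X]) (a b : ℤ) : ℤ[X] := f.comp (C a * X + C b)

lemma sub_eval (f : ℤ[X]) (a b n : ℤ) : (sub f a b).eval n = f.eval (a * n + b) := by
  simp [sub, eval_comp]

lemma sub_natDegree_le (f : ℤ[X]) (a b : ℤ) : (sub f a b).natDegree ≤ f.natDegree := by
  unfold sub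
  refine natDegree_comp_le.trans ?_
  have : (C a * X + C b : ℤ[X]).natDegree ≤ 1 := natDegree_linear_le
  nlinarith

lemma lin_natDegree {a : ℤ} (ha : a ≠ 0) (b : ℤ) : (C a * X + C b : ℤ[X]).natDegree = 1 :=
  natDegree_linear ha

lemma sub_natDegree (f : ℤ[X]) {a : ℤ} (ha : a ≠ 0) (b : ℤ) : (sub f a b).natDegree = f.natDegree := by
  unfold sub
  rw [natDegree_comp, lin_natDegree ha, mul_one]

lemma sub_leadingCoeff (f : ℤ[X]) {a : ℤ} (ha : a ≠ 0) (b : ℤ) :
    (sub f a b).leadingCoeff = f.leadingCoeff * a ^ f.natDegree := by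
  unfold sub
  rw [leadingCoeff_comp (by rw [lin_natDegree ha]; exact one_ne_zero), leadingCoeff_linear ha]

lemma mv_bound {σ : Type} (R : MvPolynomial σ ℤ) : ∃ K : ℝ, 0 < K ∧ ∃ D : ℕ, ∀ x : σ → ℤ,
    ∀ Y : ℝ, 1 ≤ Y → (∀ i, |(x i : ℝ)| ≤ Y) → |((MvPolynomial.eval x R : ℤ) : ℝ)| ≤ K * Y ^ D := by
  induction R using MvPolynomial.induction_on with
  | C a =>
    refine ⟨|(a : ℝ)| + 1, by positivity, 0, fun x Y hY _ => ?_⟩
    rw [MvPolynomial.eval_C]
    simp
  | add p q hp hq =>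
    obtain ⟨K1, h1, D1, g1⟩ := hp
    obtain ⟨K2, h2, D2, g2⟩ := hq
    refine ⟨K1 + K2, by positivity, D1 + D2, fun x Y hY hx => ?_⟩
    rw [map_add]
    push_cast
    have e1 := g1 x Y hY hx
    have e2 := g2 x Y hY hx
    have e3 : Y ^ D1 ≤ Y ^ (D1 + D2) := pow_le_pow_right₀ hY (by omega)
    have e4 : Y ^ D2 ≤ Y ^ (D1 + D2) := pow_le_pow_right₀ hY (by omega)
    calc |((MvPolynomial.eval x p : ℤ) : ℝ) + ((MvPolynomial.eval x q : ℤ) : ℝ)| ≤ K1 * Y ^ D1 + K2 * Y ^ D2 :=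
          (abs_add_le _ _).trans (add_le_add e1 e2)
      _ ≤ K1 * Y ^ (D1 + D2) + K2 * Y ^ (D1 + D2) := by gcongr
      _ = _ := by ring
  | mul_X p i hp =>
    obtain ⟨K1, h1, D1, g1⟩ := hp
    refine ⟨K1, h1, D1 + 1, fun x Y hY hx => ?_⟩
    rw [map_mul, MvPolynomial.eval_X]
    push_cast
    rw [abs_mul, pow_succ, ← mul_assoc]
    exact mul_le_mul (g1 x Y hY hx) (hx i) (abs_nonneg _) (by positivity)

lemma res_bound (f g : ℤ[X]) (m n : ℕ) : ∃ K : ℝ, 0 < K ∧ ∃ D : ℕ, ∀ a b a' b' : ℤ, ∀ Y : ℝ, 1 ≤ Y →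
    |(a : ℝ)| ≤ Y → |(b : ℝ)| ≤ Y → |(a' : ℝ)| ≤ Y → |(b' : ℝ)| ≤ Y →
      |(((sub f a b).resultant (sub g a' b') m n : ℤ) : ℝ)| ≤ K * Y ^ D := by
  obtain ⟨F, hF⟩ : ∃ F : (MvPolynomial (Fin 4) ℤ)[X], F =
    (f.map MvPolynomial.C).comp (C (MvPolynomial.X 0) * X + C (MvPolynomial.X 1)) := ⟨_, rfl⟩
  obtain ⟨G, hG⟩ : ∃ G : (MvPolynomial (Fin 4) ℤ)[X], G =
    (g.map MvPolynomial.C).comp (C (MvPolynomial.X 2) * X + C (MvPolynomial.X 3)) := ⟨_, rfl⟩
  obtain ⟨K, hK, D, h⟩ := mv_bound (F.resultant G m n)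
  refine ⟨K, hK, D, fun a b a' b' Y hY h1 h2 h3 h4 => ?_⟩
  have hC : ∀ x : Fin 4 → ℤ, (MvPolynomial.eval x).comp (MvPolynomial.C : ℤ →+* MvPolynomial (Fin 4) ℤ) =
      RingHom.id ℤ := fun x => by ext; simp
  have h5 := h ![a, b, a', b'] Y hY (by
    intro i
    fin_cases i
    · simpa using h1
    · simpa using h2
    · simpa using h3
    · simpa using h4)
  have h6 := resultant_map_map F G m n (MvPolynomial.eval ![a, b, a', b'])
  have hFm : F.map (MvPolynomial.eval ![a, b, a', b']) = sub f a b := by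
    rw [hF, Polynomial.map_comp, Polynomial.map_map, hC, Polynomial.map_id]
    simp [sub]
  have hGm : G.map (MvPolynomial.eval ![a, b, a', b']) = sub g a' b' := by
    rw [hG, Polynomial.map_comp, Polynomial.map_map, hC, Polynomial.map_id]
    simp [sub]
  rw [hFm, hGm] at h6
  rw [h6]
  exact h5

lemma res_dvd (f g : ℤ[X]) (hf : 0 < f.natDegree) (a b a' b' : ℤ) (p x : ℤ)
    (h1 : p ∣ (sub f a b).eval x) (h2 : p ∣ (sub g a' b').eval x) :
    p ∣ (sub f a b).resultant (sub g a' b') f.natDegree g.natDegree := by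
  obtain ⟨P, Q, -, -, hPQ⟩ := exists_mul_add_mul_eq_C_resultant (sub f a b) (sub g a' b')
    (sub_natDegree_le f a b) (sub_natDegree_le g a' b') (Or.inl hf.ne')
  have h := congrArg (Polynomial.eval x) hPQ
  rw [eval_add, eval_mul, eval_mul, eval_C] at h
  rw [← h]
  exact dvd_add (Dvd.dvd.mul_right h1 _) (Dvd.dvd.mul_right h2 _)

lemma res_ne (f g : ℤ[X]) {a a' : ℤ} (ha : a ≠ 0) (ha' : a' ≠ 0) (b b' : ℤ)
    (hc : IsCoprime ((sub f a b).map (Int.castRingHom ℚ)) ((sub g a' b').map (Int.castRingHom ℚ))) :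
    (sub f a b).resultant (sub g a' b') f.natDegree g.natDegree ≠ 0 := by
  intro h0
  have h1 := resultant_map_map (sub f a b) (sub g a' b') f.natDegree g.natDegree (Int.castRingHom ℚ)
  rw [h0, map_zero] at h1
  have h2 := resultant_ne_zero _ _ hc
  have e1 : ((sub f a b).map (Int.castRingHom ℚ)).natDegree = f.natDegree := by
    rw [natDegree_map_eq_of_injective (RingHom.injective_int (Int.castRingHom ℚ)), sub_natDegree f ha]
  have e2 : ((sub g a' b').map (Int.castRingHom ℚ)).natDegree = g.natDegree := by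
    rw [natDegree_map_eq_of_injective (RingHom.injective_int (Int.castRingHom ℚ)), sub_natDegree g ha']
  rw [e1, e2] at h2
  exact h2 h1

/-- an invertible linear substitution preserves irreducibility over `ℚ` -/
lemma sub_irreducible (f : ℤ[X]) (hf : Irreducible (f.map (Int.castRingHom ℚ))) {a : ℤ} (ha : a ≠ 0)
    (b : ℤ) : Irreducible ((sub f a b).map (Int.castRingHom ℚ)) := by
  have haq : (a : ℚ) ≠ 0 := by exact_mod_cast ha
  have h1 : (sub f a b).map (Int.castRingHom ℚ) =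
      (f.map (Int.castRingHom ℚ)).comp (C (a : ℚ) * X + C (b : ℚ)) := by
    unfold sub
    rw [Polynomial.map_comp]
    simp
  rw [h1]
  haveI : Invertible (a : ℚ) := invertibleOfNonzero haq
  have h2 := (MulEquiv.irreducible_iff (algEquivCMulXAddC (a : ℚ) (b : ℚ))).2 hf
  rw [algEquivCMulXAddC_apply, aeval_def] at h2
  exact h2

end Pool.Agent.X10.PC
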