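import Pool.Agent.X10.PC.Greedy
import Pool.Agent.W154.PV.CovD
import Pool.Agent.W154.PV.RoughD

set_option autoImplicit false

/-! # Auxiliary results for composite values of `f_i (a n + b)` (helper10) -/

namespace Pool.Agent.X10.PC

open Polynomial Finset Filter
open Pool.Agent.H474R2.PG (rho PR Sg)
open Pool.Agent.H426R3.SQ (SP)
open Pool.Agent.W154.PV (nu)

lemma unif {ι : Type} [Finite ι] (P : ι → ℝ → Prop) (hmono : ∀ i x y, x ≤ y → P i x → P i y)
    (h : ∀ i, ∃ x, P i x) : ∃ x : ℝ, 0 ≤ x ∧ ∀ i, P i x := by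
  haveI := Fintype.ofFinite ι
  choose g hg using h
  refine ⟨∑ i, |g i|, sum_nonneg fun _ _ => abs_nonneg _, fun i => hmono i _ _ ?_ (hg i)⟩
  exact (le_abs_self _).trans (single_le_sum (f := fun i => |g i|) (fun _ _ => abs_nonneg _) (mem_univ i))

lemma unifN {ι : Type} [Finite ι] (P : ι → ℕ → Prop) (hmono : ∀ i x y, x ≤ y → P i x → P i y)
    (h : ∀ i, ∃ x, P i x) : ∃ x : ℕ, ∀ i, P i x := by
  haveI := Fintype.ofFinite ι
  choose g hg using h
  exact ⟨∑ i, g i, fun i => hmono i _ _ (single_le_sum (f := g) (fun _ _ => Nat.zero_le _) (mem_univ i)) (hg i)⟩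

/-- tiny values are rare -/
lemma exc_card (g : ℤ[X]) (hg : 0 < g.natDegree) (I : Finset ℤ) (E : ℝ) (hE : 0 ≤ E) :
    ((I.filter (fun n => ((g.eval n).natAbs : ℝ) ≤ E)).card : ℝ) ≤ g.natDegree * (2 * E + 1) := by
  classical
  have hsub : I.filter (fun n => ((g.eval n).natAbs : ℝ) ≤ E) ⊆
      (Icc (-(⌊E⌋₊ : ℤ)) (⌊E⌋₊ : ℤ)).biUnion (fun v => (g - C v).roots.toFinset) := by
    intro n hn
    rw [mem_filter] at hn
    rw [mem_biUnion]
    refine ⟨g.eval n, ?_, ?_⟩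
    · have h1 : (g.eval n).natAbs ≤ ⌊E⌋₊ := Nat.le_floor hn.2
      rw [mem_Icc]
      omega
    · rw [Multiset.mem_toFinset, mem_roots, IsRoot.def]
      · simp
      · intro h0
        have h1 : g = C (g.eval n) := sub_eq_zero.1 h0
        rw [h1, natDegree_C] at hg
        exact lt_irrefl _ hg
  have h1 := card_le_card hsub
  have h2 : ((Icc (-(⌊E⌋₊ : ℤ)) (⌊E⌋₊ : ℤ)).biUnion (fun v => (g - C v).roots.toFinset)).card ≤
      (Icc (-(⌊E⌋₊ : ℤ)) (⌊E⌋₊ : ℤ)).card * g.natDegree := by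
    apply card_biUnion_le_card_mul
    intro v _
    refine (Multiset.toFinset_card_le _).trans ((card_roots' _).trans ?_)
    rw [natDegree_sub_C]
  rw [Int.card_Icc] at h2
  have h3 : ((⌊E⌋₊ : ℤ) + 1 - -(⌊E⌋₊ : ℤ)).toNat = 2 * ⌊E⌋₊ + 1 := by omega
  rw [h3] at h2
  have h4 : ((I.filter (fun n => ((g.eval n).natAbs : ℝ) ≤ E)).card : ℝ) ≤ (2 * ⌊E⌋₊ + 1 : ℕ) * g.natDegree := by
    exact_mod_cast h1.trans h2
  have h5 : ((2 * ⌊E⌋₊ + 1 : ℕ) : ℝ) ≤ 2 * E + 1 := by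
    push_cast
    linarith [Nat.floor_le hE]
  calc _ ≤ ((2 * ⌊E⌋₊ + 1 : ℕ) : ℝ) * g.natDegree := h4
    _ ≤ (2 * E + 1) * g.natDegree := mul_le_mul_of_nonneg_right h5 (Nat.cast_nonneg _)
    _ = _ := mul_comm _ _

lemma transfer (g h : ℤ[X]) (hA : Associated (g.map (Int.castRingHom ℚ)) (h.map (Int.castRingHom ℚ))) (n : ℤ) :
    g.leadingCoeff * h.eval n = h.leadingCoeff * g.eval n := by
  obtain ⟨u, hu⟩ := hA
  obtain ⟨r, _, hr⟩ := Polynomial.isUnit_iff.1 u.isUnit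
  rw [← hr] at hu
  have hinj : Function.Injective (Int.castRingHom ℚ) := RingHom.injective_int _
  have e1 := congrArg leadingCoeff hu
  rw [leadingCoeff_mul, leadingCoeff_C, leadingCoeff_map_of_injective hinj,
    leadingCoeff_map_of_injective hinj] at e1
  have e2 := congrArg (Polynomial.eval (n : ℚ)) hu
  rw [eval_mul, eval_C] at e2
  have e3 : ∀ q : ℤ[X], (q.map (Int.castRingHom ℚ)).eval (n : ℚ) = ((q.eval n : ℤ) : ℚ) := by
    intro q
    have := Polynomial.eval_map_apply (Int.castRingHom ℚ) n (p := q)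
    simpa using this
  rw [e3, e3] at e2
  simp only [eq_intCast] at e1
  have e4 : ((g.leadingCoeff * h.eval n : ℤ) : ℚ) = ((h.leadingCoeff * g.eval n : ℤ) : ℚ) := by
    push_cast
    rw [← e1, ← e2]
    ring
  exact_mod_cast e4

lemma irr_map (f : ℤ[X]) (hf : Irreducible f) (hd : 0 < f.natDegree) :
    Irreducible (f.map (Int.castRingHom ℚ)) :=
  (Polynomial.IsPrimitive.Int.irreducible_iff_irreducible_map_cast (hf.isPrimitive hd.ne')).1 hf

lemma coprime_of_not_assoc {P Q : ℚ[X]} (hP : Irreducible P) (hQ : Irreducible Q) (h : ¬ Associated P Q) :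
    IsCoprime P Q := by
  rw [hP.coprime_iff_not_dvd]
  intro hd
  exact h (hP.associated_of_dvd hQ hd)

/-- the error term -/
lemma err2 (D : ℕ) (hD : 1 ≤ D) (L : ℝ) (hL : 1 < L) (hl : 2 * Real.log D ≤ Real.log L)
    (T : Finset ℕ) (r : ℕ → ℕ) (hT : ∀ p ∈ T, L ^ 3 < (p : ℝ)) (hr : ∀ p ∈ T, r p ≤ D)
    (hTX : ∏ p ∈ T, (p : ℝ) ≤ Real.exp (1 / 4 * L)) : ∏ p ∈ T, (r p : ℝ) ≤ Real.exp (1 / 20 * L) := by
  have hL0 : 0 < L := by linarith
  have hdR : (1:ℝ) ≤ D := by exact_mod_cast hD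
  have hlL : 0 < Real.log L := Real.log_pos hL
  have h1 : ∏ p ∈ T, (r p : ℝ) ≤ ∏ p ∈ T, (D : ℝ) :=
    prod_le_prod (fun _ _ => Nat.cast_nonneg _) fun p hp => by exact_mod_cast hr p hp
  rw [prod_const] at h1
  have h2 : (L ^ 3) ^ T.card ≤ ∏ p ∈ T, (p : ℝ) := by
    have : (L ^ 3) ^ T.card = ∏ p ∈ T, L ^ 3 := by rw [prod_const]
    rw [this]
    exact prod_le_prod (fun _ _ => by positivity) (fun p hp => (hT p hp).le)
  have h3 : (T.card : ℝ) * (3 * Real.log L) ≤ 1 / 4 * L := by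
    have h4 := h2.trans hTX
    have h5 := Real.log_le_log (by positivity) h4
    rw [Real.log_pow, Real.log_pow, Real.log_exp] at h5
    push_cast at h5
    exact h5
  refine h1.trans ?_
  have h6 : (D : ℝ) ^ T.card = Real.exp (T.card * Real.log D) := by
    rw [Real.exp_nat_mul, Real.exp_log (by linarith)]
  rw [h6]
  apply Real.exp_le_exp.mpr
  have h7 : (T.card : ℝ) * (2 * Real.log D) ≤ T.card * Real.log L :=
    mul_le_mul_of_nonneg_left hl (Nat.cast_nonneg _)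
  nlinarith

/-- the sum over a set of exceptional primes -/
lemma except_sum (r : ℕ → ℕ) (D : ℕ) (C : ℝ) (hl : ∀ w : ℝ, 3 ≤ w → Real.log (Real.log w) - C ≤ Sg r w)
    (hu : ∀ w : ℝ, 3 ≤ w → Sg r w ≤ Real.log (Real.log w) + C) (L : ℝ) (hL : 3 ≤ L)
    (hD : ∀ p : ℕ, p.Prime → L < p → r p ≤ D)
    (B : Finset ℕ) (hB : (B.card : ℝ) ≤ L ^ 6) (w : ℝ) (hw : L ^ 3 ≤ w) :
    Real.log (Real.log w) - Real.log (Real.log (L ^ 3)) - (4 * C + 1 + D) ≤
      ∑ p ∈ SP (L ^ 3) w B, (r p : ℝ) / (p : ℝ) := by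
  classical
  have hL0 : 0 < L := by linarith
  have h33 : 3 ≤ L ^ 3 := by nlinarith [sq_nonneg L, pow_pos hL0 2]
  have h36 : L ^ 3 ≤ L ^ 6 := pow_le_pow_right₀ (by linarith) (by norm_num)
  have hw3 : 3 ≤ w := h33.trans hw
  -- all the primes up to w
  have h1 : Sg r w ≤ Sg r (L ^ 3) + ∑ p ∈ SP (L ^ 3) w B, (r p : ℝ) / (p : ℝ) +
      (∑ p ∈ (PR (L ^ 6)).filter (fun p : ℕ => L ^ 3 < (p : ℝ)), (r p : ℝ) / (p : ℝ) +
      ∑ p ∈ B.filter (fun p : ℕ => p.Prime ∧ L ^ 6 < (p : ℝ)), (r p : ℝ) / (p : ℝ)) := by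
    have hsub : PR w ⊆ (PR (L ^ 3) ∪ SP (L ^ 3) w B) ∪
        ((PR (L ^ 6)).filter (fun p : ℕ => L ^ 3 < (p : ℝ)) ∪ B.filter (fun p : ℕ => p.Prime ∧ L ^ 6 < (p : ℝ))) := by
      intro p hp
      unfold PR at hp
      rw [mem_filter, mem_Icc] at hp
      obtain ⟨⟨p1, p2⟩, p3⟩ := hp
      rw [mem_union, mem_union, mem_union]
      by_cases c1 : (p : ℝ) ≤ L ^ 3
      · left; left
        unfold PR
        rw [mem_filter, mem_Icc]
        exact ⟨⟨p1, Nat.le_floor c1⟩, p3⟩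
      · push Not at c1
        by_cases c2 : p ∈ B
        · right
          by_cases c3 : (p : ℝ) ≤ L ^ 6
          · left
            rw [mem_filter]
            unfold PR
            rw [mem_filter, mem_Icc]
            exact ⟨⟨⟨p1, Nat.le_floor c3⟩, p3⟩, c1⟩
          · right
            push Not at c3
            rw [mem_filter]
            exact ⟨c2, p3, c3⟩
        · left; right
          unfold SP
          rw [mem_filter, mem_Icc]
          exact ⟨⟨p1, p2⟩, p3, c1, c2⟩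
    have hnn : ∀ p : ℕ, 0 ≤ (r p : ℝ) / (p : ℝ) := fun p => by positivity
    have hun : ∀ s t : Finset ℕ, ∑ p ∈ s ∪ t, (r p : ℝ) / (p : ℝ) ≤
        ∑ p ∈ s, (r p : ℝ) / (p : ℝ) + ∑ p ∈ t, (r p : ℝ) / (p : ℝ) := by
      intro s t
      rw [← sum_union_inter]
      have : 0 ≤ ∑ p ∈ s ∩ t, (r p : ℝ) / (p : ℝ) := sum_nonneg fun p _ => hnn p
      linarith
    calc Sg r w ≤ _ := by
          unfold Sg
          exact sum_le_sum_of_subset_of_nonneg hsub fun p _ _ => hnn p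
      _ ≤ _ := by
          refine (hun _ _).trans (add_le_add ?_ (hun _ _))
          refine (hun _ _).trans ?_
          unfold Sg
          exact le_rfl
  -- the middle range
  have h2 : ∑ p ∈ (PR (L ^ 6)).filter (fun p : ℕ => L ^ 3 < (p : ℝ)), (r p : ℝ) / (p : ℝ) ≤ 1 + 2 * C := by
    have h3 : Sg r (L ^ 3) + ∑ p ∈ (PR (L ^ 6)).filter (fun p : ℕ => L ^ 3 < (p : ℝ)), (r p : ℝ) / (p : ℝ) ≤
        Sg r (L ^ 6) := by
      unfold Sg
      rw [← sum_filter_add_sum_filter_not (PR (L ^ 6)) (fun p : ℕ => L ^ 3 < (p : ℝ)), add_comm]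
      apply add_le_add le_rfl
      apply sum_le_sum_of_subset_of_nonneg
      · intro p hp
        unfold PR at hp ⊢
        rw [mem_filter, mem_Icc] at hp
        rw [mem_filter, mem_filter, mem_Icc, not_lt]
        have h4 : (p : ℝ) ≤ L ^ 3 := by
          calc (p : ℝ) ≤ (⌊L ^ 3⌋₊ : ℝ) := by exact_mod_cast hp.1.2
            _ ≤ L ^ 3 := Nat.floor_le (by positivity)
        exact ⟨⟨⟨hp.1.1, Nat.le_floor (h4.trans h36)⟩, hp.2⟩, h4⟩
      · intro p _ _
        positivity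
    have h4 := hl (L ^ 3) h33
    have h5 := hu (L ^ 6) (h33.trans h36)
    have hlL : 0 < Real.log L := Real.log_pos (by linarith)
    have h6 : Real.log (Real.log (L ^ 6)) = Real.log (Real.log (L ^ 3)) + Real.log 2 := by
      rw [Real.log_pow, Real.log_pow, ← Real.log_mul (by positivity) (by norm_num)]
      congr 1
      push_cast
      ring
    have h7 := Real.log_two_lt_d9
    linarith
  -- the large ones
  have h3 : ∑ p ∈ B.filter (fun p : ℕ => p.Prime ∧ L ^ 6 < (p : ℝ)), (r p : ℝ) / (p : ℝ) ≤ D := by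
    calc _ ≤ ∑ p ∈ B.filter (fun p : ℕ => p.Prime ∧ L ^ 6 < (p : ℝ)), (D : ℝ) / L ^ 6 := by
          refine sum_le_sum fun p hp => ?_
          rw [mem_filter] at hp
          have h4 : L < p := by
            have : L ≤ L ^ 6 := le_self_pow₀ (by linarith) (by norm_num)
            linarith [hp.2.2]
          have h5 : (r p : ℝ) ≤ D := by exact_mod_cast hD p hp.2.1 h4
          exact div_le_div₀ (Nat.cast_nonneg _) h5 (by positivity) hp.2.2.le
      _ = (B.filter (fun p : ℕ => p.Prime ∧ L ^ 6 < (p : ℝ))).card * ((D : ℝ) / L ^ 6) := by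
          rw [sum_const, nsmul_eq_mul]
      _ ≤ L ^ 6 * ((D : ℝ) / L ^ 6) := by
          apply mul_le_mul_of_nonneg_right _ (by positivity)
          refine le_trans ?_ hB
          exact_mod_cast card_le_card (filter_subset _ _)
      _ = D := by field_simp
  have h4 := hl w hw3
  have h5 := hu (L ^ 3) h33
  linarith

end Pool.Agent.X10.PC
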